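import Pool.Agent.V7H14.GF.Gen
import Pool.Agent.Y837.SV.Crit3

set_option autoImplicit false
set_option linter.unusedSectionVars false
set_option linter.unusedVariables false

/-! # The criterion for integer polynomials with algebraic exceptional values

After `Pool.Agent.Y837.SV.crit3` (helper837) and `Pool.Agent.R433.WF.schur` (helper433). -/

namespace Pool.Agent.V7H14.GF

open Finset Filter
open Pool.Agent.H256R2.SC (ff crt_int)
open Pool.Agent.H256R2.SC.LG (ana)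
open Pool.Agent.Y837.SV

open scoped Classical

theorem aeval_taylor_int (m : Polynomial ℤ) (t : ℤ) (p : ℕ) (r : ZMod p) :
    Polynomial.aeval r (Polynomial.taylor t m) = Polynomial.aeval (r + (t : ZMod p)) m := by
  rw [Polynomial.taylor_apply, Polynomial.aeval_comp]
  congr 2
  simp

section
open MvPolynomial
/-- a nonconstant polynomial has zeros modulo infinitely many primes -/
theorem schur {d : ℕ} (G : MvPolynomial (Fin d) ℤ) (hG : ∀ k, G ≠ MvPolynomial.C k) (B : ℕ) :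
    ∃ p : ℕ, p.Prime ∧ B < p ∧ ∃ x : Fin d → ℤ, (p : ℤ) ∣ eval x G - 0 := by
  by_cases hz : ∃ u, eval u G = 0
  · obtain ⟨u, hu⟩ := hz
    obtain ⟨p, hp1, hp2⟩ := Nat.exists_infinite_primes (B + 1)
    exact ⟨p, hp2, by omega, u, by rw [hu, sub_zero]; exact dvd_zero _⟩
  push Not at hz
  obtain ⟨g, hg⟩ : ∃ g, g = eval 0 G := ⟨_, rfl⟩
  have hg0 : g ≠ 0 := by rw [hg]; exact hz 0
  obtain ⟨k, hk⟩ : ∃ k : ℤ, k = g * ((B + 1).factorial : ℤ) := ⟨_, rfl⟩
  have hk0 : k ≠ 0 := by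
    rw [hk]
    exact mul_ne_zero hg0 (by exact_mod_cast (Nat.factorial_pos _).ne')
  obtain ⟨y, hy1, hy2⟩ : ∃ y : Fin d → ℤ, eval (fun i => k * y i) G ≠ g ∧
      eval (fun i => k * y i) G ≠ -g := by
    by_contra hcon
    push Not at hcon
    have h1 : (G - MvPolynomial.C g) * (G + MvPolynomial.C g) = 0 := by
      refine MvPolynomial.funext_set (fun _ : Fin d => Set.range fun y : ℤ => k * y)
        (fun _ => Set.infinite_range_of_injective (mul_right_injective₀ hk0)) ?_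
      intro x hx
      choose y hy using fun i => hx i (Set.mem_univ i)
      have e : x = fun i => k * y i := funext fun i => (hy i).symm
      rw [map_mul, map_sub, map_add, eval_C, map_zero, e]
      by_cases h2 : eval (fun i => k * y i) G = g
      · rw [h2, sub_self, zero_mul]
      · rw [hcon y h2, neg_add_cancel, mul_zero]
    rcases mul_eq_zero.1 h1 with h2 | h2
    · exact hG _ (sub_eq_zero.1 h2)
    · exact hG (-g) (by rw [map_neg]; exact eq_neg_of_add_eq_zero_left h2)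
  have hdvd : k ∣ eval (fun i => k * y i) G - g := by
    rw [← Int.natAbs_dvd, ← ZMod.intCast_zmod_eq_zero_iff_dvd _ k.natAbs]
    have h1 : ∀ x : Fin d → ℤ, ((eval x G : ℤ) : ZMod k.natAbs) =
        aeval (fun i => ((x i : ℤ) : ZMod k.natAbs)) G := by
      intro x
      change Int.castRingHom (ZMod k.natAbs) (eval x G) = _
      rw [MvPolynomial.aeval_def, MvPolynomial.eval, MvPolynomial.coe_eval₂Hom,
        MvPolynomial.hom_eval₂]
      congr 1
    have hkz : ((k : ℤ) : ZMod k.natAbs) = 0 := by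
      rw [ZMod.intCast_zmod_eq_zero_iff_dvd]
      exact Int.natAbs_dvd.2 dvd_rfl
    rw [Int.cast_sub, hg, h1, h1, sub_eq_zero]
    congr 1
    ext i
    push_cast
    rw [hkz]
    simp
  obtain ⟨t, ht⟩ := hdvd
  have hv : eval (fun i => k * y i) G = g * (1 + ((B + 1).factorial : ℤ) * t) := by
    have : eval (fun i => k * y i) G = g + k * t := by linarith
    rw [this, hk]
    ring
  set u : ℤ := 1 + ((B + 1).factorial : ℤ) * t with hu
  have hu1 : u.natAbs ≠ 1 := by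
    intro h
    rcases Int.natAbs_eq u with h' | h'
    · rw [h, Nat.cast_one] at h'
      exact hy1 (by rw [hv, h', mul_one])
    · rw [h, Nat.cast_one] at h'
      exact hy2 (by rw [hv, h']; ring)
  refine ⟨u.natAbs.minFac, Nat.minFac_prime hu1, ?_, fun i => k * y i, ?_⟩
  · by_contra hcon
    have hp := Nat.minFac_prime hu1
    have h1 : u.natAbs.minFac ∣ (B + 1).factorial := Nat.dvd_factorial hp.pos (by omega)
    have h2 : ((u.natAbs.minFac : ℕ) : ℤ) ∣ u :=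
      Int.natCast_dvd.2 (Nat.minFac_dvd _)
    have h3 : ((u.natAbs.minFac : ℕ) : ℤ) ∣ ((B + 1).factorial : ℤ) * t :=
      (Int.natCast_dvd_natCast.2 h1).mul_right _
    have h4 : ((u.natAbs.minFac : ℕ) : ℤ) ∣ 1 := by
      have h5 := dvd_sub h2 h3
      rw [hu] at h5
      simpa using h5
    have h6 := Int.natAbs_dvd_natAbs.2 h4
    rw [Int.natAbs_natCast, Int.natAbs_one, Nat.dvd_one] at h6
    exact hp.one_lt.ne' h6
  · rw [sub_zero, hv]
    exact (Int.natCast_dvd.2 (Nat.minFac_dvd _)).mul_left _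

end

/-- translation: the values `t j` at the medium primes -/
theorem gen4t {ι : Type} [Fintype ι] (d : ℕ) (φ : ι → ∀ p : ℕ, (Fin d → ZMod p) → ZMod p)
    (f : ι → (Fin d → ℤ) → ℤ) (hf : ∀ j (p : ℕ) x, ((f j x : ℤ) : ZMod p) = φ j p (red d p x))
    (B : ℕ) (t : ι → ℤ) (v u : ℕ → Fin d → ℤ)
    (hv : ∀ p : ℕ, p.Prime → B < p → ∀ j, (p : ℤ) ∣ f j (v p) - t j)
    (hu : ∀ p : ℕ, p.Prime → B < p → ∀ j, ¬ (p : ℤ) ∣ f j (u p) - t j)
    (m : ι → Polynomial ℤ) (hm : ∀ j, m j ≠ 0)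
    (hEx : ∀ j, ∀ r : ℤ, (m j).eval r = 0 → ∃ p : ℕ, p.Prime ∧ p ≤ B ∧ (p : ℤ) ∣ f j (u p) - r)
    (C δ : ℝ) (hC : 0 ≤ C) (hδ : 0 < δ) (hδ2 : δ ≤ 1 / 2)
    (hU : ∀ p : ℕ, p.Prime → B < p → ∀ j, ∀ r : ZMod p, Polynomial.aeval r (m j) ≠ 0 →
      |(p : ℝ) * (Nat.card {x : Fin d → ZMod p // φ j p x = r} : ℝ) - (p : ℝ) ^ d| ≤
        C * (p : ℝ) ^ d * (p : ℝ) ^ (-δ))
    (hP : ∀ p : ℕ, p.Prime → B < p → ∀ i j, i ≠ j → ∀ r s : ZMod p, Polynomial.aeval r (m i) ≠ 0 →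
      Polynomial.aeval s (m j) ≠ 0 →
      (p : ℝ) ^ 2 * (Nat.card {x : Fin d → ZMod p // φ i p x = r ∧ φ j p x = s} : ℝ) ≤
        C * (p : ℝ) ^ d) :
    ∃ c : ℝ, 0 < c ∧ ∃ Z₀ : ℝ, ∀ Z : ℕ, Z₀ ≤ Z → ∀ M : Fin d → ℤ, ∃ x : Fin d → ℤ,
      (∀ i, M i < x i ∧ x i ≤ M i + Z) ∧ ∀ j, ∀ n : ℤ, |(n : ℝ) - f j x| ≤ c * ff Z →
        ∃ p : ℕ, p.Prime ∧ (p : ℝ) ≤ (Z : ℝ) ^ (1 / 10 : ℝ) ∧ (p : ℤ) ∣ n := by
  obtain ⟨c, hc, Z₀, h⟩ := gen4 d (fun j p x => φ j p x - (t j : ZMod p)) (fun j x => f j x - t j)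
    (by
      intro j p x
      push_cast
      rw [hf])
    B v u hv hu (fun j => Polynomial.taylor (t j) (m j))
    (by
      intro j h0
      apply hm j
      apply Polynomial.taylor_injective (t j)
      rw [h0, map_zero]) (by
      intro j r hr
      rw [Polynomial.taylor_eval] at hr
      obtain ⟨p, hp, hp1, hp2⟩ := hEx j _ hr
      refine ⟨p, hp, hp1, ?_⟩
      have e : f j (u p) - t j - r = f j (u p) - (r + t j) := by ring
      rw [e]
      exact hp2) C δ hC hδ hδ2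
    (by
      intro p hp hB j r hr
      have h1 := hU p hp hB j (r + t j) (by
        rw [← aeval_taylor_int]
        exact hr)
      have h2 : Nat.card {x : Fin d → ZMod p // φ j p x = r + t j} =
          Nat.card {x : Fin d → ZMod p // φ j p x - (t j : ZMod p) = r} := by
        refine Nat.card_congr (Equiv.subtypeEquivRight fun x => ?_)
        rw [sub_eq_iff_eq_add]
      rw [h2] at h1
      exact h1)
    (by
      intro p hp hB i j hij r s hr hs
      have h1 := hP p hp hB i j hij (r + t i) (s + t j) (by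
        rw [← aeval_taylor_int]
        exact hr) (by
        rw [← aeval_taylor_int]
        exact hs)
      have h2 : Nat.card {x : Fin d → ZMod p // φ i p x = r + t i ∧ φ j p x = s + t j} =
          Nat.card {x : Fin d → ZMod p // φ i p x - (t i : ZMod p) = r ∧ φ j p x - (t j : ZMod p) = s} := by
        refine Nat.card_congr (Equiv.subtypeEquivRight fun x => ?_)
        rw [sub_eq_iff_eq_add, sub_eq_iff_eq_add]
      rw [h2] at h1
      exact h1)
  obtain ⟨V, hV⟩ : ∃ V : ℝ, V = ∑ j : ι, |(t j : ℝ)| := ⟨_, rfl⟩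
  have hV0 : 0 ≤ V := by rw [hV]; exact Finset.sum_nonneg fun _ _ => abs_nonneg _
  have hVb : ∀ j, |(t j : ℝ)| ≤ V := by
    intro j
    rw [hV]
    exact Finset.single_le_sum (f := fun j : ι => |(t j : ℝ)|) (fun _ _ => abs_nonneg _) (mem_univ j)
  obtain ⟨X₂, hana⟩ : ∃ X₀ : ℝ, ∀ X : ℝ, X₀ ≤ X → 2 * V / c ≤ ff X := by
    obtain ⟨c', hc', X₀, hX₀⟩ := ana (c := 1) (C := 1) (y₀ := 0) one_pos one_pos
    refine ⟨max X₀ (Real.exp (10 * c' * (2 * V / c))), fun X hX => ?_⟩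
    obtain ⟨q1, q2⟩ := max_le_iff.1 hX
    obtain ⟨-, -, -, -, a5, a6, -⟩ := hX₀ X q1 _ _ rfl rfl _ rfl
    have h1 : Real.log X / 10 ≤ c' * ff X := a5.trans a6
    have h2 : 10 * c' * (2 * V / c) ≤ Real.log X := by
      rw [← Real.log_exp (10 * c' * (2 * V / c))]
      exact Real.log_le_log (Real.exp_pos _) q2
    have h3 : c' * (2 * V / c) ≤ c' * ff X := by linarith
    exact le_of_mul_le_mul_left h3 hc'
  refine ⟨c / 2, by positivity, max Z₀ X₂, fun Z hZ M => ?_⟩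
  obtain ⟨q1, q2⟩ := max_le_iff.1 hZ
  obtain ⟨x, hx1, hx2⟩ := h Z q1 M
  refine ⟨x, hx1, fun j n hn => ?_⟩
  have h3 := hana Z q2
  have h4 : V ≤ c / 2 * ff Z := by
    rw [div_le_iff₀ hc] at h3
    linarith
  obtain ⟨p, hp, hp1, hp2⟩ := hx2 j (n - f j x + t j) (by
    push_cast
    calc |(n : ℝ) - f j x + t j| ≤ |(n : ℝ) - f j x| + |(t j : ℝ)| := abs_add_le _ _
      _ ≤ c / 2 * ff Z + V := add_le_add hn (hVb j)
      _ ≤ c * ff Z := by linarith)
  refine ⟨p, hp, hp1, ?_⟩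
  have e : f j x - t j + (n - f j x + t j) = n := by ring
  rwa [e] at hp2

/-- **The criterion**: equidistribution modulo the primes implies record neighbourhoods. -/
theorem crit4 {ι : Type} [Fintype ι] (d : ℕ) (F : ι → MvPolynomial (Fin d) ℤ)
    (hF : ∀ j, ∀ c : ℤ, F j ≠ MvPolynomial.C c)
    (m : ι → Polynomial ℤ) (hm : ∀ j, m j ≠ 0) (B₀ : ℕ) (C δ : ℝ) (hδ : 0 < δ)
    (hU : ∀ p : ℕ, p.Prime → B₀ < p → ∀ j, ∀ r : ZMod p, Polynomial.aeval r (m j) ≠ 0 →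
      |(p : ℝ) * (Nat.card {x : Fin d → ZMod p // MvPolynomial.aeval x (F j) = r} : ℝ) - (p : ℝ) ^ d| ≤
        C * (p : ℝ) ^ d * (p : ℝ) ^ (-δ))
    (hP : ∀ p : ℕ, p.Prime → B₀ < p → ∀ i j, i ≠ j → ∀ r s : ZMod p, Polynomial.aeval r (m i) ≠ 0 →
      Polynomial.aeval s (m j) ≠ 0 →
      (p : ℝ) ^ 2 * (Nat.card {x : Fin d → ZMod p // MvPolynomial.aeval x (F i) = r ∧
        MvPolynomial.aeval x (F j) = s} : ℝ) ≤ C * (p : ℝ) ^ d) :
    ∃ c : ℝ, 0 < c ∧ ∃ Z₀ : ℝ, ∀ Z : ℕ, Z₀ ≤ Z → ∀ M : Fin d → ℤ, ∃ x : Fin d → ℤ,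
      (∀ i, M i < x i ∧ x i ≤ M i + Z) ∧ ∀ j, ∀ n : ℤ, |(n : ℝ) - MvPolynomial.eval x (F j)| ≤ c * ff Z →
        ∃ p : ℕ, p.Prime ∧ (p : ℝ) ≤ (Z : ℝ) ^ (1 / 10 : ℝ) ∧ (p : ℤ) ∣ n := by
  obtain ⟨w, hw⟩ := avoid d F (fun j => MvPolynomial.eval 0 (F j)) (fun j => hF j _)
  obtain ⟨B₁, hB₁⟩ : ∃ B₁ : ℕ, B₁ = B₀ + ∑ j : ι,
      (MvPolynomial.eval w (F j) - MvPolynomial.eval 0 (F j)).natAbs := ⟨_, rfl⟩
  obtain ⟨E, hE⟩ : ∃ E : Finset (ι × ℤ), E = univ.biUnion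
      (fun j => (m j).roots.toFinset.image (fun r => (j, r))) :=
    ⟨_, rfl⟩
  have hEmem : ∀ j, ∀ r : ℤ, (m j).eval r = 0 → (j, r) ∈ E := by
    intro j r hr
    rw [hE, mem_biUnion]
    exact ⟨j, mem_univ _, mem_image.2 ⟨r, Multiset.mem_toFinset.2 ((Polynomial.mem_roots (hm j)).2 hr), rfl⟩⟩
  obtain ⟨B, hB, u, hu1, hu2⟩ := extras d (fun j x => MvPolynomial.eval x (F j)) B₁ w E (by
    intro k hk
    rw [hE, mem_biUnion] at hk
    obtain ⟨j, -, hj⟩ := hk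
    rw [mem_image] at hj
    obtain ⟨r, hr, rfl⟩ := hj
    intro B
    obtain ⟨p, hp, hBp, x, hx⟩ := schur (F j - MvPolynomial.C r) (fun k hk => hF j (k + r) (by
      rw [map_add, ← hk, sub_add_cancel])) B
    refine ⟨p, hp, hBp, x, ?_⟩
    rw [sub_zero, map_sub, MvPolynomial.eval_C] at hx
    exact hx)
  have hBB₀ : B₀ ≤ B := by omega
  have hδ' : 0 < min δ (1 / 2) := lt_min hδ (by norm_num)
  refine gen4t d (fun j p x => MvPolynomial.aeval x (F j)) (fun j x => MvPolynomial.eval x (F j)) ?_ B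
    (fun j => MvPolynomial.eval 0 (F j)) (fun _ => 0) u ?_ ?_ m hm ?_ |C| (min δ (1 / 2)) (abs_nonneg C) hδ'
    (min_le_right _ _) ?_ ?_
  · intro j p x
    have h1 : (Int.castRingHom (ZMod p)) (MvPolynomial.eval x (F j)) =
        MvPolynomial.aeval (red d p x) (F j) := by
      rw [MvPolynomial.aeval_def, MvPolynomial.eval, MvPolynomial.coe_eval₂Hom,
        MvPolynomial.hom_eval₂]
      congr 1
    exact h1
  · intro p hp hBp j
    rw [sub_self]
    exact dvd_zero _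
  · intro p hp hBp j hdvd
    rw [hu1 p hBp] at hdvd
    have h1 := Int.natAbs_dvd_natAbs.2 hdvd
    rw [Int.natAbs_natCast] at h1
    have h2 : 0 < (MvPolynomial.eval w (F j) - MvPolynomial.eval 0 (F j)).natAbs :=
      Int.natAbs_pos.2 (sub_ne_zero.2 (hw j))
    have h3 := Nat.le_of_dvd h2 h1
    have h4 : (MvPolynomial.eval w (F j) - MvPolynomial.eval 0 (F j)).natAbs ≤ ∑ j : ι,
      (MvPolynomial.eval w (F j) - MvPolynomial.eval 0 (F j)).natAbs :=
      Finset.single_le_sum (f := fun j : ι =>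
        (MvPolynomial.eval w (F j) - MvPolynomial.eval 0 (F j)).natAbs) (fun _ _ => Nat.zero_le _) (mem_univ j)
    omega
  · intro j r hr
    exact hu2 (j, r) (hEmem j r hr)
  · intro p hp hBp j r hr
    have hp1 : (1 : ℝ) ≤ p := by exact_mod_cast hp.one_lt.le
    refine (hU p hp (lt_of_le_of_lt hBB₀ hBp) j r hr).trans ?_
    have hpd : (0 : ℝ) ≤ (p : ℝ) ^ d := by positivity
    have h3 : (p : ℝ) ^ (-δ) ≤ (p : ℝ) ^ (-min δ (1 / 2)) :=
      Real.rpow_le_rpow_of_exponent_le hp1 (neg_le_neg (min_le_left _ _))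
    have h4 : (0 : ℝ) ≤ (p : ℝ) ^ (-δ) := by positivity
    calc C * (p : ℝ) ^ d * (p : ℝ) ^ (-δ) ≤ |C| * (p : ℝ) ^ d * (p : ℝ) ^ (-δ) := by
          apply mul_le_mul_of_nonneg_right _ h4
          exact mul_le_mul_of_nonneg_right (le_abs_self C) hpd
      _ ≤ |C| * (p : ℝ) ^ d * (p : ℝ) ^ (-min δ (1 / 2)) :=
          mul_le_mul_of_nonneg_left h3 (by positivity)
  · intro p hp hBp i j hij r s hr hs
    refine (hP p hp (lt_of_le_of_lt hBB₀ hBp) i j hij r s hr hs).trans ?_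
    exact mul_le_mul_of_nonneg_right (le_abs_self C) (by positivity)

end Pool.Agent.V7H14.GF
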