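import Pool.Agent.V7H14.GF.Alg2

set_option autoImplicit false
set_option linter.all false

/-! # The common points of two of the curves -/

open Polynomial

namespace Pool.Agent.V7H14.GF

open Pool.Agent.R410.LW

theorem det_nd {K : Type} [CommRing K] {n dd : ℕ} (M : Matrix (Fin n) (Fin n) K[X])
    (h : ∀ i j, (M i j).natDegree ≤ dd) : M.det.natDegree ≤ n * dd := by
  classical
  rw [Matrix.det_apply]
  refine natDegree_sum_le_of_forall_le _ _ fun σ _ => ?_
  refine (natDegree_smul_le _ _).trans ?_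
  refine (natDegree_prod_le _ _).trans ?_
  refine (Finset.sum_le_card_nsmul _ _ dd fun i _ => h _ _).trans ?_
  rw [Finset.card_univ, Fintype.card_fin, smul_eq_mul]

theorem res_nd {K : Type} [CommRing K] {m n dd : ℕ} (f g : K[X][X]) (hf : ∀ i, (f.coeff i).natDegree ≤ dd)
    (hg : ∀ i, (g.coeff i).natDegree ≤ dd) : (resultant f g m n).natDegree ≤ (m + n) * dd := by
  apply det_nd
  intro i j
  unfold sylvester
  rw [Matrix.of_apply]
  induction j using Fin.addCases with
  | left j =>
    rw [Fin.addCases_left]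
    split_ifs
    · exact hg _
    · rw [natDegree_zero]
      exact Nat.zero_le _
  | right j =>
    rw [Fin.addCases_right]
    split_ifs
    · exact hf _
    · rw [natDegree_zero]
      exact Nat.zero_le _

/-- the common points of two curves without common component -/
theorem common {K : Type} [Field K] [Finite K] {dd : ℕ} {f g : K[X][X]} (hf : f.Monic)
    (hf0 : 0 < f.natDegree) (hirr : Irreducible f) (hfg : ¬ f ∣ g) (hfd : ∀ i, (f.coeff i).natDegree ≤ dd)
    (hgd : ∀ i, (g.coeff i).natDegree ≤ dd) :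
    Nat.card {z : K × K // ev (RingHom.id K) z f = 0 ∧ ev (RingHom.id K) z g = 0} ≤
      (f.natDegree + g.natDegree) * dd * f.natDegree := by
  classical
  set L := FractionRing K[X]
  have hinj : Function.Injective (algebraMap K[X] L) := IsFractionRing.injective _ _
  have h1 : Irreducible (f.map (algebraMap K[X] L)) :=
    (hf.irreducible_iff_irreducible_map_fraction_map (K := L)).1 hirr
  have h2 : ¬ f.map (algebraMap K[X] L) ∣ g.map (algebraMap K[X] L) := by
    rw [map_dvd_map _ hinj hf]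
    exact hfg
  have h3 : IsCoprime (f.map (algebraMap K[X] L)) (g.map (algebraMap K[X] L)) :=
    h1.coprime_iff_not_dvd.2 h2
  have h4 : resultant f g ≠ 0 := by
    intro h0
    apply resultant_ne_zero _ _ h3
    rw [natDegree_map_eq_of_injective hinj, natDegree_map_eq_of_injective hinj, resultant_map_map, h0, map_zero]
  set R := resultant f g with hR
  obtain ⟨a, b, -, -, hab⟩ := exists_mul_add_mul_eq_C_resultant f g le_rfl le_rfl (Or.inl hf0.ne')
  set S : Finset K := R.roots.toFinset with hS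
  have hScard : S.card ≤ (f.natDegree + g.natDegree) * dd :=
    (Multiset.toFinset_card_le _).trans ((card_roots' _).trans (res_nd f g hfd hgd))
  have h5 : ∀ z : K × K, ev (RingHom.id K) z f = 0 → ev (RingHom.id K) z g = 0 → z.1 ∈ S := by
    intro z hz1 hz2
    rw [hS, Multiset.mem_toFinset, mem_roots h4, IsRoot.def]
    have h6 := congrArg (ev (RingHom.id K) z) hab
    rw [map_add, map_mul, map_mul, hz1, hz2, zero_mul, zero_mul, add_zero, ev_C, eval₂_id] at h6
    exact h6.symm
  have h6 := curve_le hf (RingHom.id K) S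
  have h7 : Nat.card {z : K × K // ev (RingHom.id K) z f = 0 ∧ ev (RingHom.id K) z g = 0} ≤
      Nat.card {z : K × K // ev (RingHom.id K) z f = 0 ∧ z.1 ∈ S} :=
    Nat.card_le_card_of_injective
      (fun z : {z : K × K // ev (RingHom.id K) z f = 0 ∧ ev (RingHom.id K) z g = 0} =>
        (⟨z.1, z.2.1, h5 z.1 z.2.1 z.2.2⟩ : {z : K × K // ev (RingHom.id K) z f = 0 ∧ z.1 ∈ S}))
      (fun z z' h => Subtype.ext (congrArg (fun w => w.1) h))
  exact h7.trans (h6.trans (Nat.mul_le_mul_right _ hScard))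

theorem ev_th {K : Type} [Field K] (l : ℤ) (F : MvPolynomial (Fin 2) ℤ) (r : K) (x : Fin 2 → K) :
    ev (RingHom.id K) (co l (1 : K) one_ne_zero x) (th K l F - C (C r)) = MvPolynomial.aeval x F - r := by
  have h := th_eval (RingHom.id K) l F (x 0) (x 1)
  have e : MvPolynomial.eval₂ (Int.castRingHom K) ![x 0, x 1] F = MvPolynomial.aeval x F := by
    rw [MvPolynomial.aeval_def]
    congr 1
    ext i
    fin_cases i <;> rfl
  rw [e] at h
  rw [map_sub, ev_C, eval₂_C]
  have e2 : co l (1 : K) one_ne_zero x = (x 0 - l * x 1, x 1) := by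
    show (x 0 - l * x 1, 1 * x 1) = _
    rw [one_mul]
  rw [e2]
  show (th K l F).eval₂ (eval₂RingHom (RingHom.id K) (x 0 - l * x 1)) (x 1) - r = _
  rw [h]

theorem iso_th {K : Type} [Field K] (l : ℤ) (F : MvPolynomial (Fin 2) ℤ) (r : K) :
    iso K l 1 one_ne_zero (th K l F - C (C r)) =
      MvPolynomial.map (Int.castRingHom K) F - MvPolynomial.C r := by
  have h := th_eval (MvPolynomial.C : K →+* MvPolynomial (Fin 2) K) l F (MvPolynomial.X 0) (MvPolynomial.X 1)
  have e2 : MvPolynomial.eval₂ (Int.castRingHom (MvPolynomial (Fin 2) K))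
      ![MvPolynomial.X 0, MvPolynomial.X 1] F = MvPolynomial.map (Int.castRingHom K) F := by
    have h1 : MvPolynomial.eval₂Hom (Int.castRingHom (MvPolynomial (Fin 2) K))
      ![MvPolynomial.X 0, MvPolynomial.X 1] = MvPolynomial.map (Int.castRingHom K) := by
      apply MvPolynomial.ringHom_ext
      · intro r
        simp
      · intro i
        fin_cases i
        · simp
        · simp
    exact congrArg (fun g => g F) h1
  rw [e2] at h
  rw [map_sub]
  have h3 : iso K l 1 one_ne_zero (th K l F) = MvPolynomial.map (Int.castRingHom K) F := by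
    rw [← h]
    show (eval₂RingHom _ _) (th K l F) = _
    rw [coe_eval₂RingHom]
    congr 1
    rw [map_one, one_mul]
  have h4 : iso K l 1 one_ne_zero (C (C r)) = MvPolynomial.C r := by
    show (eval₂RingHom _ _) (C (C r)) = _
    rw [coe_eval₂RingHom, eval₂_C, coe_eval₂RingHom, eval₂_C]
  rw [h3, h4]

/-- a nonzero minor of two polynomials which are independent modulo the constants -/
theorem minor {n : ℕ} {F G : MvPolynomial (Fin n) ℤ} (hF : 0 < F.totalDegree)
    (hFG : ∀ a b c : ℤ, MvPolynomial.C a * F + MvPolynomial.C b * G = MvPolynomial.C c → a = 0 ∧ b = 0) :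
    ∃ α β : Fin n →₀ ℕ, α ≠ 0 ∧ β ≠ 0 ∧ MvPolynomial.coeff α F * MvPolynomial.coeff β G -
      MvPolynomial.coeff β F * MvPolynomial.coeff α G ≠ 0 := by
  classical
  obtain ⟨α, hα0, hα⟩ : ∃ α : Fin n →₀ ℕ, α ≠ 0 ∧ MvPolynomial.coeff α F ≠ 0 := by
    by_contra hcon
    push Not at hcon
    have : F = MvPolynomial.C (MvPolynomial.coeff 0 F) := by
      ext α
      rw [MvPolynomial.coeff_C]
      by_cases h : 0 = α
      · rw [if_pos h, h]
      · rw [if_neg h]
        exact hcon α (Ne.symm h)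
    rw [this, MvPolynomial.totalDegree_C] at hF
    exact lt_irrefl _ hF
  by_contra hcon
  push Not at hcon
  have h := hFG (-MvPolynomial.coeff α G) (MvPolynomial.coeff α F)
    (-MvPolynomial.coeff α G * MvPolynomial.coeff 0 F + MvPolynomial.coeff α F * MvPolynomial.coeff 0 G) (by
      ext β
      rw [MvPolynomial.coeff_add, MvPolynomial.coeff_C_mul, MvPolynomial.coeff_C_mul, MvPolynomial.coeff_C]
      by_cases h0 : 0 = β
      · rw [if_pos h0, h0]
      · rw [if_neg h0]
        have := hcon α β hα0 (Ne.symm h0)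
        linear_combination this)
  exact hα h.2

theorem not_dvd_large {a : ℤ} (ha : a ≠ 0) {p : ℕ} (hp : a.natAbs < p) : ((a : ℤ) : ZMod p) ≠ 0 := by
  rw [ne_eq, ZMod.intCast_zmod_eq_zero_iff_dvd]
  intro hdvd
  have h3 := Int.natAbs_dvd_natAbs.2 hdvd
  rw [Int.natAbs_natCast] at h3
  have h4 := Nat.le_of_dvd (Int.natAbs_pos.2 ha) h3
  omega

/-- two of the curves do not coincide modulo a large prime -/
theorem not_dvd {n : ℕ} {F G : MvPolynomial (Fin n) ℤ} {α β : Fin n →₀ ℕ} (hα : α ≠ 0) (hβ : β ≠ 0)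
    {K : Type} [Field K] (hΔ : ((MvPolynomial.coeff α F * MvPolynomial.coeff β G -
      MvPolynomial.coeff β F * MvPolynomial.coeff α G : ℤ) : K) ≠ 0) (r s : K)
    (hF : Irreducible (MvPolynomial.map (Int.castRingHom K) F - MvPolynomial.C r))
    (hG : Irreducible (MvPolynomial.map (Int.castRingHom K) G - MvPolynomial.C s)) :
    ¬ (MvPolynomial.map (Int.castRingHom K) F - MvPolynomial.C r) ∣
      (MvPolynomial.map (Int.castRingHom K) G - MvPolynomial.C s) := by
  intro hd
  obtain ⟨u, hu⟩ := hF.associated_of_dvd hG hd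
  obtain ⟨c, hc, huc⟩ := (MvPolynomial.isUnit_iff_eq_C_of_isReduced).1 u.isUnit
  rw [huc] at hu
  have key : ∀ γ : Fin n →₀ ℕ, γ ≠ 0 → ((MvPolynomial.coeff γ F : ℤ) : K) * c =
      ((MvPolynomial.coeff γ G : ℤ) : K) := by
    intro γ hγ
    have h1 := congrArg (MvPolynomial.coeff γ) hu
    rw [mul_comm, MvPolynomial.coeff_C_mul, MvPolynomial.coeff_sub, MvPolynomial.coeff_sub,
      MvPolynomial.coeff_map, MvPolynomial.coeff_map, MvPolynomial.coeff_C, MvPolynomial.coeff_C,
      if_neg (Ne.symm hγ), if_neg (Ne.symm hγ), sub_zero, sub_zero] at h1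
    rw [mul_comm]
    exact h1
  apply hΔ
  push_cast
  rw [← key α hα, ← key β hβ]
  ring

/-- **the common points of two of the curves** -/
theorem pairs (F G : MvPolynomial (Fin 2) ℤ) (hF : 0 < F.totalDegree)
    (hFG : ∀ a b c : ℤ, MvPolynomial.C a * F + MvPolynomial.C b * G = MvPolynomial.C c → a = 0 ∧ b = 0) :
    ∃ C₁ B : ℕ, ∀ (p : ℕ) [Fact p.Prime], B < p → ∀ r s : ZMod p,
      Irreducible (MvPolynomial.map (Int.castRingHom (ZMod p)) F - MvPolynomial.C r) →
      Irreducible (MvPolynomial.map (Int.castRingHom (ZMod p)) G - MvPolynomial.C s) →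
      Nat.card {x : Fin 2 → ZMod p // MvPolynomial.aeval x F = r ∧ MvPolynomial.aeval x G = s} ≤ C₁ := by
  classical
  have hF0 : F ≠ 0 := by
    rintro rfl
    rw [MvPolynomial.totalDegree_zero] at hF
    exact lt_irrefl _ hF
  obtain ⟨l, hc⟩ := exists_tc hF0
  obtain ⟨α, β, hα, hβ, hΔ⟩ := minor hF hFG
  obtain ⟨Δ, hΔd⟩ : ∃ Δ : ℤ, Δ = MvPolynomial.coeff α F * MvPolynomial.coeff β G -
      MvPolynomial.coeff β F * MvPolynomial.coeff α G := ⟨_, rfl⟩
  rw [← hΔd] at hΔ
  have hdd : ∀ H : MvPolynomial (Fin 2) ℤ, ∃ dd : ℕ, ∀ i, ((th ℤ l H).coeff i).natDegree ≤ dd := by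
    intro H
    refine ⟨(th ℤ l H).support.sup fun i => ((th ℤ l H).coeff i).natDegree, fun i => ?_⟩
    by_cases hi : i ∈ (th ℤ l H).support
    · exact Finset.le_sup (f := fun i => ((th ℤ l H).coeff i).natDegree) hi
    · rw [notMem_support_iff.1 hi, natDegree_zero]
      exact Nat.zero_le _
  obtain ⟨d1, hd1⟩ := hdd F
  obtain ⟨d2, hd2⟩ := hdd G
  refine ⟨(F.totalDegree + G.totalDegree) * (d1 + d2) * F.totalDegree, (tc l F).natAbs + Δ.natAbs, ?_⟩
  intro p _ hp r s hr hs
  have hcp : ((tc l F : ℤ) : ZMod p) ≠ 0 := not_dvd_large hc (by omega)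
  have hΔp : ((Δ : ℤ) : ZMod p) ≠ 0 := not_dvd_large hΔ (by omega)
  have hnd := not_dvd hα hβ (by rw [← hΔd]; exact hΔp) r s hr hs
  have hcoef : ∀ (H : MvPolynomial (Fin 2) ℤ) (t : ZMod p) (d : ℕ),
      (∀ i, ((th ℤ l H).coeff i).natDegree ≤ d) →
      ∀ i, ((th (ZMod p) l H - C (C t)).coeff i).natDegree ≤ d := by
    intro H t d hd i
    rw [← th_map (Int.castRingHom (ZMod p)) l H, coeff_sub, coeff_map]
    refine (natDegree_sub_le _ _).trans (max_le (natDegree_map_le.trans (hd i)) ?_)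
    rw [coeff_C]
    split_ifs
    · rw [natDegree_C]
      exact Nat.zero_le _
    · rw [natDegree_zero]
      exact Nat.zero_le _
  obtain ⟨f, hf⟩ : ∃ f : (ZMod p)[X][X], f = th (ZMod p) l F - C (C r) := ⟨_, rfl⟩
  obtain ⟨g, hg⟩ : ∃ g : (ZMod p)[X][X], g = th (ZMod p) l G - C (C s) := ⟨_, rfl⟩
  have hfn : f.natDegree ≤ F.totalDegree := by
    rw [hf]
    refine (natDegree_sub_le _ _).trans (max_le (th_nd _ _) ?_)
    rw [natDegree_C]
    exact Nat.zero_le _
  have hgn : g.natDegree ≤ G.totalDegree := by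
    rw [hg]
    refine (natDegree_sub_le _ _).trans (max_le (th_nd _ _) ?_)
    rw [natDegree_C]
    exact Nat.zero_le _
  have hfc : f.coeff F.totalDegree = C ((tc l F : ℤ) : ZMod p) := by
    rw [hf, coeff_sub, th_coeff, coeff_C_of_ne_zero (by omega), sub_zero]
  have hfn' : f.natDegree = F.totalDegree := by
    apply le_antisymm hfn
    apply le_natDegree_of_ne_zero
    rw [hfc]
    exact C_ne_zero.2 hcp
  have hunit : IsUnit (C (C (((tc l F : ℤ) : ZMod p))⁻¹) : (ZMod p)[X][X]) :=
    ((isUnit_iff_ne_zero.2 (inv_ne_zero hcp)).map C).map C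
  obtain ⟨f', hf'⟩ : ∃ f' : (ZMod p)[X][X], f' = C (C (((tc l F : ℤ) : ZMod p))⁻¹) * f := ⟨_, rfl⟩
  have hf'n : f'.natDegree = F.totalDegree := by
    rw [hf', natDegree_C_mul (by simpa using hcp), hfn']
  have hf'm : f'.Monic := by
    rw [Monic, leadingCoeff, hf'n, hf', coeff_C_mul, hfc, ← map_mul, inv_mul_cancel₀ hcp, map_one]
  have hfirr : Irreducible f := by
    rw [← MulEquiv.irreducible_iff (iso (ZMod p) l 1 one_ne_zero).toMulEquiv]
    show Irreducible (iso (ZMod p) l 1 one_ne_zero f)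
    rw [hf, iso_th]
    exact hr
  have hf'irr : Irreducible f' := by
    rw [hf', irreducible_isUnit_mul hunit]
    exact hfirr
  have hfg : ¬ f' ∣ g := by
    intro hd
    apply hnd
    have h1 : f ∣ g := (Dvd.intro_left _ hf'.symm).trans hd
    have h2 := map_dvd (iso (ZMod p) l 1 one_ne_zero) h1
    rw [hf, hg, iso_th, iso_th] at h2
    exact h2
  have h1 := common (dd := d1 + d2) hf'm (by rw [hf'n]; exact hF) hf'irr hfg (by
      intro i
      rw [hf', coeff_C_mul]
      refine (natDegree_C_mul_le _ _).trans ?_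
      rw [hf]
      exact (hcoef F r d1 hd1 i).trans (Nat.le_add_right _ _)) (by
      intro i
      rw [hg]
      exact (hcoef G s d2 hd2 i).trans (Nat.le_add_left _ _))
  rw [hf'n] at h1
  have h2 : Nat.card {x : Fin 2 → ZMod p // MvPolynomial.aeval x F = r ∧ MvPolynomial.aeval x G = s} =
      Nat.card {z : ZMod p × ZMod p // ev (RingHom.id (ZMod p)) z f' = 0 ∧
        ev (RingHom.id (ZMod p)) z g = 0} := by
    refine Nat.card_congr ((co l (1 : ZMod p) one_ne_zero).subtypeEquiv fun x => ?_)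
    rw [hf', map_mul, hf, hg, ev_th, ev_th, ev_C, eval₂_C, mul_eq_zero, sub_eq_zero, sub_eq_zero]
    constructor
    · exact fun h => ⟨Or.inr h.1, h.2⟩
    · rintro ⟨h | h, h'⟩
      · exact absurd h (inv_ne_zero hcp)
      · exact ⟨h, h'⟩
  rw [h2]
  refine h1.trans ?_
  exact Nat.mul_le_mul_right _ (Nat.mul_le_mul_right _ (Nat.add_le_add_left hgn _))

end Pool.Agent.V7H14.GF
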