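import Mathlib

set_option autoImplicit false
set_option linter.all false

/-! # The family `F(x, y) = T` as a family of plane curves monic in `y` -/

open Polynomial

namespace Pool.Agent.V7H14.GF

/-- the substitution `x ↦ X + l Y`, `y ↦ Y` with values in `R[X][Y]` -/
noncomputable def th (R : Type) [CommRing R] (l : ℤ) : MvPolynomial (Fin 2) ℤ →+* R[X][X] :=
  MvPolynomial.eval₂Hom (Int.castRingHom _) ![C X + C (C (l : R)) * X, X]

section
variable {R S : Type} [CommRing R] [CommRing S]

theorem th_map (ψ : R →+* S) (l : ℤ) (F : MvPolynomial (Fin 2) ℤ) :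
    (th R l F).map (mapRingHom ψ) = th S l F := by
  have h : (mapRingHom (mapRingHom ψ)).comp (th R l) = th S l := by
    apply MvPolynomial.ringHom_ext
    · intro r
      simp [th]
    · intro i
      fin_cases i
      · simp [th]
      · simp [th]
  exact congrArg (fun g => g F) h

theorem th_eval (ψ : R →+* S) (l : ℤ) (F : MvPolynomial (Fin 2) ℤ) (a b : S) :
    (th R l F).eval₂ (eval₂RingHom ψ (a - l * b)) b = MvPolynomial.eval₂ (Int.castRingHom S) ![a, b] F := by
  have h : (eval₂RingHom (eval₂RingHom ψ (a - l * b)) b).comp (th R l) =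
      MvPolynomial.eval₂Hom (Int.castRingHom S) ![a, b] := by
    apply MvPolynomial.ringHom_ext
    · intro r
      simp [th]
    · intro i
      have e := map_intCast (eval₂RingHom (eval₂RingHom ψ (a - l * b)) b) l
      rw [coe_eval₂RingHom] at e
      fin_cases i
      · simp [th, e]
      · simp [th]
  exact congrArg (fun g => g F) h

/-- the coefficient of the highest power of `Y` -/
noncomputable def tc (l : ℤ) (F : MvPolynomial (Fin 2) ℤ) : ℤ :=
  ∑ α ∈ F.support with α 0 + α 1 = F.totalDegree, MvPolynomial.coeff α F * l ^ α 0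

theorem deg_two (α : Fin 2 →₀ ℕ) : (α.sum fun _ e => e) = α 0 + α 1 := by
  rw [Finsupp.sum_fintype _ _ (fun _ => rfl), Fin.sum_univ_two]

theorem th_mono (l : ℤ) (α : Fin 2 →₀ ℕ) (a : ℤ) :
    th R l (MvPolynomial.monomial α a) = C (C (a : R)) * (C X + C (C (l : R)) * X) ^ α 0 * X ^ α 1 := by
  unfold th
  rw [MvPolynomial.coe_eval₂Hom, MvPolynomial.eval₂_monomial, Finsupp.prod_fintype _ _ (fun _ => pow_zero _),
    Fin.prod_univ_two]
  simp [mul_assoc]

theorem lin_nd (l : ℤ) : (C X + C (C (l : R)) * X : R[X][X]).natDegree ≤ 1 := by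
  refine (natDegree_add_le _ _).trans (max_le ?_ ?_)
  · rw [natDegree_C]
    exact Nat.zero_le _
  · exact (natDegree_C_mul_le _ _).trans natDegree_X_le

theorem th_mono_nd (l : ℤ) (α : Fin 2 →₀ ℕ) (a : ℤ) :
    (th R l (MvPolynomial.monomial α a)).natDegree ≤ α 0 + α 1 := by
  rw [th_mono]
  refine natDegree_mul_le.trans (add_le_add ?_ (natDegree_X_pow_le _))
  refine (natDegree_C_mul_le _ _).trans ?_
  refine natDegree_pow_le.trans ?_
  calc α 0 * _ ≤ α 0 * 1 := Nat.mul_le_mul_left _ (lin_nd l)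
    _ = α 0 := mul_one _

theorem th_mono_coeff (l : ℤ) (α : Fin 2 →₀ ℕ) (a : ℤ) :
    (th R l (MvPolynomial.monomial α a)).coeff (α 0 + α 1) = C (((a * l ^ α 0 : ℤ) : R)) := by
  rw [th_mono, coeff_mul_X_pow, coeff_C_mul]
  have h := coeff_pow_of_natDegree_le (m := α 0) (lin_nd (R := R) l)
  rw [mul_one] at h
  rw [h, coeff_add, coeff_C_succ, coeff_C_mul, coeff_X_one]
  simp

theorem th_sum (l : ℤ) (F : MvPolynomial (Fin 2) ℤ) :
    th R l F = ∑ α ∈ F.support, th R l (MvPolynomial.monomial α (MvPolynomial.coeff α F)) := by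
  conv_lhs => rw [F.as_sum]
  rw [map_sum]

theorem le_deg {F : MvPolynomial (Fin 2) ℤ} {α : Fin 2 →₀ ℕ} (h : α ∈ F.support) :
    α 0 + α 1 ≤ F.totalDegree := by
  rw [← deg_two]
  exact MvPolynomial.le_totalDegree h

theorem th_nd (l : ℤ) (F : MvPolynomial (Fin 2) ℤ) : (th R l F).natDegree ≤ F.totalDegree := by
  rw [th_sum]
  exact natDegree_sum_le_of_forall_le _ _ fun α hα => (th_mono_nd l α _).trans (le_deg hα)

theorem th_coeff (l : ℤ) (F : MvPolynomial (Fin 2) ℤ) :
    (th R l F).coeff F.totalDegree = C ((tc l F : ℤ) : R) := by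
  classical
  rw [th_sum, finset_sum_coeff, tc, Finset.sum_filter]
  push_cast
  rw [map_sum]
  refine Finset.sum_congr rfl fun α hα => ?_
  by_cases h : α 0 + α 1 = F.totalDegree
  · rw [if_pos h, ← h, th_mono_coeff]
    push_cast
    rfl
  · rw [if_neg h, map_zero]
    apply coeff_eq_zero_of_natDegree_lt
    exact (th_mono_nd l α _).trans_lt (lt_of_le_of_ne (le_deg hα) h)

theorem exists_tc {F : MvPolynomial (Fin 2) ℤ} (hF : F ≠ 0) : ∃ l : ℤ, tc l F ≠ 0 := by
  classical
  obtain ⟨Q, hQ⟩ : ∃ Q : ℤ[X], Q = ∑ α ∈ F.support with α 0 + α 1 = F.totalDegree,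
    monomial (α 0) (MvPolynomial.coeff α F) := ⟨_, rfl⟩
  obtain ⟨β, hβ, hβd⟩ : ∃ β ∈ F.support, β 0 + β 1 = F.totalDegree := by
    have h1 : F.support.Nonempty := MvPolynomial.support_nonempty.2 hF
    obtain ⟨β, hβ, h2⟩ := Finset.exists_mem_eq_sup _ h1 (fun s => s.sum fun _ e => e)
    refine ⟨β, hβ, ?_⟩
    rw [← deg_two, MvPolynomial.totalDegree, h2]
  have hQ0 : Q ≠ 0 := by
    intro h
    have h1 : Q.coeff (β 0) = MvPolynomial.coeff β F := by
      rw [hQ, finset_sum_coeff, Finset.sum_eq_single β]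
      · rw [coeff_monomial, if_pos rfl]
      · intro α hα hne
        rw [coeff_monomial, if_neg]
        intro h2
        apply hne
        rw [Finset.mem_filter] at hα
        ext i
        fin_cases i
        · exact h2
        · show α 1 = β 1
          omega
      · intro h2
        exact absurd (Finset.mem_filter.2 ⟨hβ, hβd⟩) h2
    rw [h, coeff_zero] at h1
    exact MvPolynomial.mem_support_iff.1 hβ h1.symm
  by_contra hcon
  push Not at hcon
  apply hQ0
  apply Polynomial.funext
  intro l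
  rw [hQ, eval_finset_sum, eval_zero, ← hcon l, tc]
  refine Finset.sum_congr rfl fun α _ => ?_
  rw [eval_monomial]

end

/-- the generic member of the family -/
noncomputable def PP (l : ℤ) (F : MvPolynomial (Fin 2) ℤ) : ℤ[X][X][X] := th ℤ[X] l F - C (C X)

/-- its monic form -/
noncomputable def ff (l : ℤ) (F : MvPolynomial (Fin 2) ℤ) : ℤ[X][X][X] := integralNormalization (PP l F)

section
variable {l : ℤ} {F : MvPolynomial (Fin 2) ℤ}

theorem PP_coeff (h0 : 0 < F.totalDegree) :
    (PP l F).coeff F.totalDegree = C ((tc l F : ℤ) : ℤ[X]) := by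
  rw [PP, coeff_sub, th_coeff, coeff_C_of_ne_zero (by omega), sub_zero]

theorem PP_nd (h0 : 0 < F.totalDegree) (hc : tc l F ≠ 0) : (PP l F).natDegree = F.totalDegree := by
  apply le_antisymm
  · refine (natDegree_sub_le _ _).trans (max_le (th_nd _ _) ?_)
    rw [natDegree_C]
    exact Nat.zero_le _
  · apply le_natDegree_of_ne_zero
    rw [PP_coeff h0]
    simpa using hc

theorem PP_lc (h0 : 0 < F.totalDegree) (hc : tc l F ≠ 0) :
    (PP l F).leadingCoeff = C ((tc l F : ℤ) : ℤ[X]) := by
  rw [leadingCoeff, PP_nd h0 hc, PP_coeff h0]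

theorem ff_monic (h0 : 0 < F.totalDegree) (hc : tc l F ≠ 0) : (ff l F).Monic := by
  apply monic_integralNormalization
  intro h
  have h1 := PP_nd h0 hc
  rw [h, natDegree_zero] at h1
  omega

theorem ff_nd (h0 : 0 < F.totalDegree) (hc : tc l F ≠ 0) : (ff l F).natDegree = F.totalDegree := by
  rw [ff, natDegree_integralNormalization, PP_nd h0 hc]

/-- the values of the monic form -/
theorem ff_eval {S : Type} [CommRing S] (h0 : 0 < F.totalDegree) (hc : tc l F ≠ 0) (ψ : ℤ[X] →+* S) (a b : S) :
    (ff l F).eval₂ (eval₂RingHom ψ (a - l * b)) (tc l F * b) =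
      (tc l F : S) ^ (F.totalDegree - 1) *
        (MvPolynomial.eval₂ (Int.castRingHom S) ![a, b] F - ψ X) := by
  have h := integralNormalization_eval₂_leadingCoeff_mul (p := PP l F) (by
    rw [PP_nd h0 hc]
    exact h0) (eval₂RingHom ψ (a - l * b)) b
  rw [PP_lc h0 hc, PP_nd h0 hc] at h
  have e : (eval₂RingHom ψ (a - l * b)) (C ((tc l F : ℤ) : ℤ[X])) = (tc l F : S) := by
    rw [coe_eval₂RingHom, eval₂_C, map_intCast]
  rw [e] at h
  rw [ff, h, PP, eval₂_sub, th_eval, eval₂_C, coe_eval₂RingHom, eval₂_C]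

end

/-- the isomorphism `Y ↦ c y`, `X ↦ x - l y` -/
noncomputable def iso (K : Type) [Field K] (l : ℤ) (c : K) (hc : c ≠ 0) : K[X][X] ≃+* MvPolynomial (Fin 2) K :=
  RingEquiv.ofRingHom
    (eval₂RingHom (eval₂RingHom MvPolynomial.C (MvPolynomial.X 0 - (l : MvPolynomial (Fin 2) K) * MvPolynomial.X 1))
      (MvPolynomial.C c * MvPolynomial.X 1))
    (MvPolynomial.eval₂Hom (C.comp C) ![C X + C (C ((l : K) * c⁻¹)) * X, C (C c⁻¹) * X])
    (by
      apply MvPolynomial.ringHom_ext
      · intro r
        simp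
      · intro i
        have h1 : (MvPolynomial.C ((l : K) * c⁻¹) : MvPolynomial (Fin 2) K) *
            (MvPolynomial.C c * MvPolynomial.X 1) = (l : MvPolynomial (Fin 2) K) * MvPolynomial.X 1 := by
          rw [← mul_assoc, ← map_mul, inv_mul_cancel_right₀ hc, map_intCast]
        have h2 : (MvPolynomial.C c⁻¹ : MvPolynomial (Fin 2) K) *
            (MvPolynomial.C c * MvPolynomial.X 1) = MvPolynomial.X 1 := by
          rw [← mul_assoc, ← map_mul, inv_mul_cancel₀ hc, map_one, one_mul]
        fin_cases i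
        · show (eval₂RingHom _ _) ((MvPolynomial.eval₂Hom _ _) (MvPolynomial.X 0)) = MvPolynomial.X 0
          rw [MvPolynomial.coe_eval₂Hom, MvPolynomial.eval₂_X]
          show (eval₂RingHom _ _) (C X + C (C ((l : K) * c⁻¹)) * X) = _
          rw [map_add, map_mul, coe_eval₂RingHom, eval₂_C, eval₂_C, eval₂_X, coe_eval₂RingHom, eval₂_X,
            eval₂_C, h1]
          ring
        · show (eval₂RingHom _ _) ((MvPolynomial.eval₂Hom _ _) (MvPolynomial.X 1)) = MvPolynomial.X 1
          rw [MvPolynomial.coe_eval₂Hom, MvPolynomial.eval₂_X]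
          show (eval₂RingHom _ _) (C (C c⁻¹) * X) = _
          rw [map_mul, coe_eval₂RingHom, eval₂_C, eval₂_X, coe_eval₂RingHom, eval₂_C, h2])
    (by
      apply Polynomial.ringHom_ext
      · intro p
        have h : ((MvPolynomial.eval₂Hom (C.comp C)
            ![C X + C (C ((l : K) * c⁻¹)) * X, C (C c⁻¹) * X] : MvPolynomial (Fin 2) K →+* K[X][X]).comp
            (eval₂RingHom MvPolynomial.C (MvPolynomial.X 0 - (l : MvPolynomial (Fin 2) K) * MvPolynomial.X 1))) = C := by
          apply Polynomial.ringHom_ext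
          · intro r
            simp
          · have e : ∀ g : MvPolynomial (Fin 2) K →+* K[X][X], g (MvPolynomial.X 0) =
                C X + C (C ((l : K) * c⁻¹)) * X → g (MvPolynomial.X 1) = C (C c⁻¹) * X →
                g (MvPolynomial.X 0 - (l : MvPolynomial (Fin 2) K) * MvPolynomial.X 1) = C X := by
              intro g h1 h2
              rw [map_sub, map_mul g, map_intCast, h1, h2, map_mul, map_mul, map_intCast, map_intCast]
              ring
            rw [RingHom.comp_apply, coe_eval₂RingHom, eval₂_X]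
            apply e
            · rw [MvPolynomial.coe_eval₂Hom, MvPolynomial.eval₂_X]
              rfl
            · rw [MvPolynomial.coe_eval₂Hom, MvPolynomial.eval₂_X]
              rfl
        rw [RingHom.comp_apply, coe_eval₂RingHom, eval₂_C]
        exact congrArg (fun g => g p) h
      · rw [RingHom.comp_apply, coe_eval₂RingHom, eval₂_X, map_mul, MvPolynomial.coe_eval₂Hom,
          MvPolynomial.eval₂_C, MvPolynomial.eval₂_X]
        show (C.comp C) c * (C (C c⁻¹) * X) = X
        rw [RingHom.comp_apply, ← mul_assoc, ← map_mul, ← map_mul, mul_inv_cancel₀ hc, map_one, map_one,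
          one_mul])

/-- the image of the special member under the isomorphism -/
theorem iso_ff {K : Type} [Field K] {l : ℤ} {F : MvPolynomial (Fin 2) ℤ} (h0 : 0 < F.totalDegree)
    (hc : tc l F ≠ 0) (hcK : ((tc l F : ℤ) : K) ≠ 0) (ψ : ℤ[X] →+* K) :
    iso K l (tc l F : K) hcK ((ff l F).map (mapRingHom ψ)) =
      MvPolynomial.C (((tc l F : ℤ) : K) ^ (F.totalDegree - 1)) *
        (MvPolynomial.map (Int.castRingHom K) F - MvPolynomial.C (ψ X)) := by
  have h := ff_eval h0 hc (S := MvPolynomial (Fin 2) K) ((MvPolynomial.C : K →+* _).comp ψ)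
    (MvPolynomial.X 0) (MvPolynomial.X 1)
  have e1 : iso K l (tc l F : K) hcK ((ff l F).map (mapRingHom ψ)) =
      eval₂ (eval₂RingHom ((MvPolynomial.C : K →+* MvPolynomial (Fin 2) K).comp ψ)
        (MvPolynomial.X 0 - (l : MvPolynomial (Fin 2) K) * MvPolynomial.X 1)) ((tc l F : MvPolynomial (Fin 2) K) * MvPolynomial.X 1)
        (ff l F) := by
    show (eval₂RingHom _ _) ((ff l F).map (mapRingHom ψ)) = _
    rw [coe_eval₂RingHom, eval₂_map]
    congr 1
    · apply Polynomial.ringHom_ext
      · intro r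
        simp
      · simp
  have e2 : MvPolynomial.eval₂ (Int.castRingHom (MvPolynomial (Fin 2) K))
      ![MvPolynomial.X 0, MvPolynomial.X 1] F = MvPolynomial.map (Int.castRingHom K) F := by
    have h1 : MvPolynomial.eval₂Hom (Int.castRingHom (MvPolynomial (Fin 2) K))
      ![MvPolynomial.X 0, MvPolynomial.X 1] = MvPolynomial.map (Int.castRingHom K) := by
      apply MvPolynomial.ringHom_ext
      · intro r
        simp
      · intro i
        fin_cases i
        · simp
        · simp
    exact congrArg (fun g => g F) h1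
  rw [e1, h, e2, map_pow, map_intCast]
  rfl

/-- the irreducibility of the special member -/
theorem irr_iff {K : Type} [Field K] {l : ℤ} {F : MvPolynomial (Fin 2) ℤ} (h0 : 0 < F.totalDegree)
    (hc : tc l F ≠ 0) (hcK : ((tc l F : ℤ) : K) ≠ 0) (ψ : ℤ[X] →+* K) :
    Irreducible ((ff l F).map (mapRingHom ψ)) ↔
      Irreducible (MvPolynomial.map (Int.castRingHom K) F - MvPolynomial.C (ψ X)) := by
  rw [← MulEquiv.irreducible_iff (iso K l (tc l F : K) hcK).toMulEquiv]
  have h1 : (iso K l (tc l F : K) hcK).toMulEquiv ((ff l F).map (mapRingHom ψ)) =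
      iso K l (tc l F : K) hcK ((ff l F).map (mapRingHom ψ)) := rfl
  rw [h1, iso_ff h0 hc hcK ψ]
  apply irreducible_isUnit_mul
  exact (isUnit_iff_ne_zero.2 (pow_ne_zero _ hcK)).map MvPolynomial.C

end Pool.Agent.V7H14.GF
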