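import Mathlib

set_option autoImplicit false
set_option linter.all false

/-! # A factorisation of the generic member of a family specialises to every member -/

open Polynomial

namespace Pool.Agent.V7H14.GF

/-- a homomorphism to an algebraically closed field extends to an integral extension -/
theorem extend_hom {A B k : Type} [CommRing A] [CommRing B] [IsDomain B] [Algebra A B]
    [Algebra.IsIntegral A B] (hinj : Function.Injective (algebraMap A B)) [Field k] [IsAlgClosed k]
    (α : A →+* k) : ∃ β : B →+* k, β.comp (algebraMap A B) = α := by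
  have hP : (RingHom.ker α).IsPrime := RingHom.ker_isPrime α
  obtain ⟨Q, hQ, hQP⟩ := Ideal.exists_ideal_over_prime_of_isIntegral_of_isDomain (R := A) (S := B)
    (RingHom.ker α) (by
      rw [(RingHom.injective_iff_ker_eq_bot _).1 hinj]
      exact bot_le)
  have hA : IsDomain (A ⧸ Q.comap (algebraMap A B)) := by
    rw [hQP]
    exact Ideal.Quotient.isDomain _
  have hB : IsDomain (B ⧸ Q) := Ideal.Quotient.isDomain _
  have hi : Function.Injective (algebraMap (A ⧸ Q.comap (algebraMap A B)) (B ⧸ Q)) :=
    Ideal.algebraMap_quotient_injective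
  have hker : ∀ a ∈ Q.comap (algebraMap A B), α a = 0 := by
    intro a ha
    rw [hQP] at ha
    exact ha
  let γ : A ⧸ Q.comap (algebraMap A B) →+* k := Ideal.Quotient.lift _ α hker
  have hγ : Function.Injective γ := by
    rw [injective_iff_map_eq_zero]
    intro a ha
    obtain ⟨a, rfl⟩ := Ideal.Quotient.mk_surjective a
    rw [Ideal.Quotient.eq_zero_iff_mem, hQP]
    rw [Ideal.Quotient.lift_mk] at ha
    exact ha
  let _ : Algebra (A ⧸ Q.comap (algebraMap A B)) k := γ.toAlgebra
  have h1 : Module.IsTorsionFree (A ⧸ Q.comap (algebraMap A B)) (B ⧸ Q) := by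
    have : FaithfulSMul (A ⧸ Q.comap (algebraMap A B)) (B ⧸ Q) :=
      (faithfulSMul_iff_algebraMap_injective _ _).2 hi
    exact Module.IsTorsionFree.trans_faithfulSMul _ (B ⧸ Q) (B ⧸ Q)
  have h2 : Module.IsTorsionFree (A ⧸ Q.comap (algebraMap A B)) k := by
    have : FaithfulSMul (A ⧸ Q.comap (algebraMap A B)) k :=
      (faithfulSMul_iff_algebraMap_injective _ _).2 hγ
    exact Module.IsTorsionFree.trans_faithfulSMul _ k k
  have h3 : Algebra.IsIntegral (A ⧸ Q.comap (algebraMap A B)) (B ⧸ Q) := by
    constructor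
    intro x
    obtain ⟨x, rfl⟩ := Ideal.Quotient.mk_surjective x
    obtain ⟨p, hp, hpx⟩ := Algebra.IsIntegral.isIntegral (R := A) x
    refine ⟨p.map (Ideal.Quotient.mk _), hp.map _, ?_⟩
    rw [eval₂_map]
    have e : (algebraMap (A ⧸ Q.comap (algebraMap A B)) (B ⧸ Q)).comp
        (Ideal.Quotient.mk (Q.comap (algebraMap A B))) = (Ideal.Quotient.mk Q).comp (algebraMap A B) := rfl
    rw [e, ← hom_eval₂, hpx, map_zero]
  let β : B ⧸ Q →ₐ[A ⧸ Q.comap (algebraMap A B)] k := IsAlgClosed.lift
  refine ⟨β.toRingHom.comp (Ideal.Quotient.mk Q), ?_⟩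
  refine RingHom.ext fun a => ?_
  show β (Ideal.Quotient.mk Q (algebraMap A B a)) = α a
  have e : Ideal.Quotient.mk Q (algebraMap A B a) =
    algebraMap (A ⧸ Q.comap (algebraMap A B)) (B ⧸ Q) (Ideal.Quotient.mk _ a) := rfl
  rw [e, β.commutes]
  show γ (Ideal.Quotient.mk _ a) = α a
  rw [Ideal.Quotient.lift_mk]

attribute [local instance] Polynomial.algebra in
/-- if some member of the family is irreducible then so is the generic member -/
theorem irr_generic {A K k : Type} [CommRing A] [IsDomain A] [Field K] [Algebra A K]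
    (hinj : Function.Injective (algebraMap A K)) [Field k] [IsAlgClosed k] (α : A →+* k)
    {f : A[X][X]} (hf : f.Monic) (hf0 : 0 < f.natDegree) (hirr : Irreducible (f.map (mapRingHom α))) :
    Irreducible (f.map (mapRingHom (algebraMap A K))) := by
  classical
  have hfm : (f.map (mapRingHom (algebraMap A K))).Monic := hf.map _
  have hne : f.map (mapRingHom (algebraMap A K)) ≠ 1 := by
    intro h
    have := hf.natDegree_map (mapRingHom (algebraMap A K))
    rw [h, natDegree_one] at this
    omega
  rw [hfm.irreducible_iff_natDegree]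
  refine ⟨hne, fun u v hu hv huv => ?_⟩
  by_contra hcon
  push Not at hcon
  obtain ⟨hu0, hv0⟩ := hcon
  let B := integralClosure A K
  -- the coefficients of monic factors are integral
  have key : ∀ w : K[X][X], w.Monic → w ∣ f.map (mapRingHom (algebraMap A K)) →
      w ∈ lifts (mapRingHom (algebraMap B K)) := by
    intro w hw hd
    rw [lifts_iff_coeff_lifts]
    intro i
    have h1 : IsIntegral A[X] (w.coeff i) := isIntegral_coeff_of_dvd (R := A[X]) (S := K[X]) f w hf hw hd i
    show w.coeff i ∈ Set.range (mapRingHom (algebraMap B K))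
    have h2 : w.coeff i ∈ lifts (algebraMap B K) := by
      rw [lifts_iff_coeff_lifts]
      intro l
      have h3 : IsIntegral A ((w.coeff i).coeff l) := IsIntegral.coeff h1 l
      exact ⟨⟨_, h3⟩, rfl⟩
    obtain ⟨p, hp⟩ := (lifts_iff_set_range _).1 h2
    exact ⟨p, hp⟩
  obtain ⟨u', hu', hud, hum⟩ := lifts_and_natDegree_eq_and_monic (key u hu ⟨v, huv.symm⟩) hu
  obtain ⟨v', hv', hvd, hvm⟩ := lifts_and_natDegree_eq_and_monic
    (key v hv ⟨u, by rw [mul_comm]; exact huv.symm⟩) hv
  have hBinj : Function.Injective (algebraMap B K) := Subtype.val_injective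
  have hprod : u' * v' = f.map (mapRingHom (algebraMap A B)) := by
    apply Polynomial.map_injective (mapRingHom (algebraMap B K)) (Polynomial.map_injective _ hBinj)
    rw [Polynomial.map_mul, hu', hv', huv, Polynomial.map_map, mapRingHom_comp]
    congr 1
  have hAB : Function.Injective (algebraMap A B) := by
    intro x y hxy
    apply hinj
    exact congrArg (algebraMap B K) hxy
  obtain ⟨β, hβ⟩ := extend_hom (A := A) (B := B) hAB α
  have hprod2 : u'.map (mapRingHom β) * v'.map (mapRingHom β) = f.map (mapRingHom α) := by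
    rw [← Polynomial.map_mul, hprod, Polynomial.map_map, mapRingHom_comp, hβ]
  rw [← hprod2] at hirr
  rcases hirr.isUnit_or_isUnit rfl with h | h
  · have h1 := (hum.map (mapRingHom β)).eq_one_of_isUnit h
    have h2 := hum.natDegree_map (mapRingHom β)
    rw [h1, natDegree_one, hud] at h2
    exact hu0 h2.symm
  · have h1 := (hvm.map (mapRingHom β)).eq_one_of_isUnit h
    have h2 := hvm.natDegree_map (mapRingHom β)
    rw [h1, natDegree_one, hvd] at h2
    exact hv0 h2.symm

end Pool.Agent.V7H14.GF
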