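import Pool.Agent.R410.LW.Step
import Pool.Agent.V7H14.GF.Alg1
import Pool.Agent.V7H14.GF.Spec

set_option autoImplicit false
set_option linter.all false

/-! # The number of the points of the curves `F(x, y) = r` modulo `p`, uniformly in `r` -/

open Polynomial

namespace Pool.Agent.V7H14.GF

open Pool.Agent.R410.LW

/-- the members of a family of plane curves with irreducible generic member: after
`Pool.Agent.R410.LW.step` -/
theorem fam {A : Type} [CommRing A] [IsDomain A] [CharZero A] {k₀ kb : Type} [Field k₀]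
    [Algebra A k₀] [IsFractionRing A k₀] [Field kb] [Algebra k₀ kb] [IsAlgClosed kb] {f : A[X][X]}
    (hf : f.Monic) (hf0 : 0 < f.natDegree)
    (hirr : Irreducible (f.map (mapRingHom ((algebraMap k₀ kb).comp (algebraMap A k₀))))) :
    ∃ D : A, D ≠ 0 ∧
      (∀ (k : Type) [Field k] (ψ : A →+* k), ψ D ≠ 0 → Irreducible (f.map (mapRingHom ψ))) ∧
      ∃ W : ℝ, 0 ≤ W ∧ ∀ (k : Type) [Field k] [Finite k] (ψ : A →+* k), ψ D ≠ 0 →
        |(Nat.card {z : k × k // ev ψ z f = 0} : ℝ) - Nat.card k| ≤ W * √(Nat.card k : ℝ) := by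
  classical
  set ι : A →+* kb := (algebraMap k₀ kb).comp (algebraMap A k₀) with hι
  have hιi : Function.Injective ι := (algebraMap k₀ kb).injective.comp (IsFractionRing.injective A k₀)
  obtain ⟨D, hD, hDirr⟩ := bn_poly (k := k₀) (kb := kb) f hf hf0 hirr
  obtain ⟨a₁, b₁, D₁, hD₁, hab⟩ := bezout hιi hf hirr
  set l := D₁.leadingCoeff with hl
  have hl0 : l ≠ 0 := leadingCoeff_ne_zero.2 hD₁
  obtain ⟨dd, hdd⟩ : ∃ dd : ℕ, ∀ i, (f.coeff i).natDegree ≤ dd := by
    refine ⟨f.support.sup fun i => (f.coeff i).natDegree, fun i => ?_⟩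
    by_cases hi : i ∈ f.support
    · exact Finset.le_sup (f := fun i => (f.coeff i).natDegree) hi
    · rw [notMem_support_iff.1 hi, natDegree_zero]
      exact Nat.zero_le _
  refine ⟨D * l, mul_ne_zero hD hl0, ?_, |Pool.Agent.R410.PW.WC f.natDegree dd D₁.natDegree|, abs_nonneg _, ?_⟩
  · intro k _ ψ hψ
    rw [map_mul] at hψ
    exact hDirr k ψ (left_ne_zero_of_mul hψ)
  · intro k _ _ ψ hψ
    rw [map_mul] at hψ
    have k3 := right_ne_zero_of_mul hψ
    have k4 := left_ne_zero_of_mul hψ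
    have hfm : (f.map (mapRingHom ψ)).Monic := hf.map _
    have hfd : (f.map (mapRingHom ψ)).natDegree = f.natDegree := hf.natDegree_map _
    have hirr' : Irreducible ((f.map (mapRingHom ψ)).map
        (mapRingHom (algebraMap k (AlgebraicClosure k)))) := by
      have h := hDirr (AlgebraicClosure k) ((algebraMap k (AlgebraicClosure k)).comp ψ) (by
        rw [RingHom.comp_apply]
        exact (_root_.map_ne_zero _).2 k4)
      rw [Polynomial.map_map]
      have h5 : (mapRingHom (algebraMap k (AlgebraicClosure k))).comp (mapRingHom ψ) =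
          mapRingHom ((algebraMap k (AlgebraicClosure k)).comp ψ) := by
        rw [mapRingHom_comp]
      rw [h5]
      exact h
    have hab' : a₁.map (mapRingHom ψ) * f.map (mapRingHom ψ) +
        b₁.map (mapRingHom ψ) * derivative (f.map (mapRingHom ψ)) = C (D₁.map ψ) := by
      have h := congrArg (Polynomial.map (mapRingHom ψ)) hab
      rw [Polynomial.map_add, Polynomial.map_mul, Polynomial.map_mul, Polynomial.map_C] at h
      rw [derivative_map]
      exact h
    have hD' : D₁.map ψ ≠ 0 := by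
      intro h
      apply k3
      have := congrArg (fun p => p.coeff D₁.natDegree) h
      simp only [coeff_map, coeff_zero] at this
      rw [hl, leadingCoeff]
      exact this
    have hw := Pool.Agent.R410.PW.weil (F := k) (AlgebraicClosure k) (f := f.map (mapRingHom ψ)) hfm
      (by rw [hfd]; exact hf0) hab' hD' (δ := D₁.natDegree) natDegree_map_le (d := dd)
      (fun i => by
        rw [coeff_map]
        exact natDegree_map_le.trans (hdd i)) hirr'
    rw [hfd] at hw
    have hnc : ({z : k × k | evalEval z.1 z.2 (f.map (mapRingHom ψ)) = 0}.ncard : ℝ) =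
        Nat.card {z : k × k // ev ψ z f = 0} := by
      rw [← Nat.card_coe_set_eq]
      congr 1
      exact Nat.card_congr (Equiv.subtypeEquivRight fun z => by
        rw [Set.mem_ofPred_eq, ev_eq])
    rw [hnc] at hw
    exact hw.trans (mul_le_mul_of_nonneg_right (le_abs_self _) (Real.sqrt_nonneg _))

/-- the coordinates `x - l y`, `c y` -/
def co {K : Type} [Field K] (l : ℤ) (c : K) (hc : c ≠ 0) : (Fin 2 → K) ≃ K × K where
  toFun x := (x 0 - l * x 1, c * x 1)
  invFun z := ![z.1 + l * (c⁻¹ * z.2), c⁻¹ * z.2]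
  left_inv x := by
    have h : c⁻¹ * (c * x 1) = x 1 := by rw [← mul_assoc, inv_mul_cancel₀ hc, one_mul]
    ext i
    fin_cases i
    · show x 0 - l * x 1 + l * (c⁻¹ * (c * x 1)) = x 0
      rw [h]
      ring
    · exact h
  right_inv z := by
    have h : c * (c⁻¹ * z.2) = z.2 := by rw [← mul_assoc, mul_inv_cancel₀ hc, one_mul]
    apply Prod.ext
    · show z.1 + l * (c⁻¹ * z.2) - l * (c⁻¹ * z.2) = z.1
      ring
    · exact h

theorem ev_co {K : Type} [Field K] {l : ℤ} {F : MvPolynomial (Fin 2) ℤ} (h0 : 0 < F.totalDegree)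
    (hc : tc l F ≠ 0) (hcK : ((tc l F : ℤ) : K) ≠ 0) (ψ : ℤ[X] →+* K) (x : Fin 2 → K) :
    ev ψ (co l (tc l F : K) hcK x) (ff l F) =
      ((tc l F : ℤ) : K) ^ (F.totalDegree - 1) * (MvPolynomial.aeval x F - ψ X) := by
  have h := ff_eval h0 hc ψ (x 0) (x 1)
  have e : MvPolynomial.eval₂ (Int.castRingHom K) ![x 0, x 1] F = MvPolynomial.aeval x F := by
    rw [MvPolynomial.aeval_def]
    congr 1
    ext i
    fin_cases i <;> rfl
  rw [e] at h
  exact h

theorem card_co {K : Type} [Field K] {l : ℤ} {F : MvPolynomial (Fin 2) ℤ} (h0 : 0 < F.totalDegree)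
    (hc : tc l F ≠ 0) (hcK : ((tc l F : ℤ) : K) ≠ 0) (ψ : ℤ[X] →+* K) :
    Nat.card {x : Fin 2 → K // MvPolynomial.aeval x F = ψ X} =
      Nat.card {z : K × K // ev ψ z (ff l F) = 0} := by
  refine Nat.card_congr ((co l (tc l F : K) hcK).subtypeEquiv fun x => ?_)
  rw [ev_co h0 hc hcK ψ, mul_eq_zero, sub_eq_zero]
  constructor
  · exact fun h => Or.inr h
  · rintro (h | h)
    · exact absurd h (pow_ne_zero _ hcK)
    · exact h

/-- the specialisation `T ↦ r` -/
noncomputable def sp {K : Type} [CommRing K] (r : K) : ℤ[X] →+* K := eval₂RingHom (Int.castRingHom K) r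

theorem sp_X {K : Type} [CommRing K] (r : K) : sp r X = r := by
  rw [sp, coe_eval₂RingHom, eval₂_X]

theorem sp_aeval {K : Type} [CommRing K] (r : K) (m : ℤ[X]) : sp r m = aeval r m := by
  rw [sp, coe_eval₂RingHom, aeval_def]
  rfl

theorem td_pos {F : MvPolynomial (Fin 2) ℤ} {c₀ : ℂ}
    (h : Irreducible (MvPolynomial.map (Int.castRingHom ℂ) F - MvPolynomial.C c₀)) : 0 < F.totalDegree := by
  rw [Nat.pos_iff_ne_zero]
  intro h0
  rw [MvPolynomial.totalDegree_eq_zero_iff_eq_C] at h0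
  rw [h0, MvPolynomial.map_C, ← map_sub] at h
  by_cases h1 : (Int.castRingHom ℂ) (MvPolynomial.coeff 0 F) - c₀ = 0
  · rw [h1, map_zero] at h
    exact h.ne_zero rfl
  · exact h.not_isUnit ((isUnit_iff_ne_zero.2 h1).map MvPolynomial.C)

/-- **The curves `F = r`**: if `F - c₀` is irreducible for some complex number `c₀` then, for all large `p`,
all the curves `F = r` modulo `p` are irreducible and have `p + O(√p)` points, up to the zeros `r` of a nonzero
integer polynomial. -/
theorem curves (F : MvPolynomial (Fin 2) ℤ)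
    (hF : ∃ c₀ : ℂ, Irreducible (MvPolynomial.map (Int.castRingHom ℂ) F - MvPolynomial.C c₀)) :
    ∃ m : ℤ[X], m ≠ 0 ∧ ∃ (W : ℝ) (B : ℕ), 0 ≤ W ∧ ∀ (p : ℕ) [Fact p.Prime], B < p → ∀ r : ZMod p,
      aeval r m ≠ 0 → Irreducible (MvPolynomial.map (Int.castRingHom (ZMod p)) F - MvPolynomial.C r) ∧
      |(Nat.card {x : Fin 2 → ZMod p // MvPolynomial.aeval x F = r} : ℝ) - p| ≤ W * √(p : ℝ) := by
  obtain ⟨c₀, hirr⟩ := hF
  have h0 := td_pos hirr
  have hF0 : F ≠ 0 := by
    rintro rfl
    rw [MvPolynomial.totalDegree_zero] at h0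
    exact lt_irrefl _ h0
  obtain ⟨l, hc⟩ := exists_tc hF0
  have hfm := ff_monic h0 hc
  have hfd := ff_nd h0 hc
  have hf0 : 0 < (ff l F).natDegree := by rw [hfd]; exact h0
  have hcC : ((tc l F : ℤ) : ℂ) ≠ 0 := by exact_mod_cast hc
  have h1 : Irreducible ((ff l F).map (mapRingHom (sp c₀))) := by
    rw [irr_iff h0 hc hcC, sp_X]
    exact hirr
  have hinj : Function.Injective (algebraMap ℤ[X] (AlgebraicClosure (FractionRing ℤ[X]))) := by
    rw [IsScalarTower.algebraMap_eq ℤ[X] (FractionRing ℤ[X]) (AlgebraicClosure (FractionRing ℤ[X]))]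
    exact (algebraMap (FractionRing ℤ[X]) (AlgebraicClosure (FractionRing ℤ[X]))).injective.comp
      (IsFractionRing.injective ℤ[X] (FractionRing ℤ[X]))
  have h2 := irr_generic (A := ℤ[X]) (K := AlgebraicClosure (FractionRing ℤ[X])) hinj (sp c₀) hfm hf0 h1
  rw [IsScalarTower.algebraMap_eq ℤ[X] (FractionRing ℤ[X]) (AlgebraicClosure (FractionRing ℤ[X]))] at h2
  obtain ⟨D, hD, hDi, W, hW, hWk⟩ := fam (A := ℤ[X]) (k₀ := FractionRing ℤ[X])
    (kb := AlgebraicClosure (FractionRing ℤ[X])) hfm hf0 h2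
  refine ⟨D, hD, W, (tc l F).natAbs, hW, ?_⟩
  intro p hp hBp r hr
  have hcp : ((tc l F : ℤ) : ZMod p) ≠ 0 := by
    rw [ne_eq, ZMod.intCast_zmod_eq_zero_iff_dvd]
    intro hdvd
    have h3 := Int.natAbs_dvd_natAbs.2 hdvd
    rw [Int.natAbs_natCast] at h3
    have h4 := Nat.le_of_dvd (Int.natAbs_pos.2 hc) h3
    omega
  have hr' : sp r D ≠ 0 := by
    rw [sp_aeval]
    exact hr
  constructor
  · have h3 := hDi (ZMod p) (sp r) hr'
    rw [irr_iff h0 hc hcp, sp_X] at h3
    exact h3
  · have h3 := hWk (ZMod p) (sp r) hr'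
    rw [← card_co h0 hc hcp (sp r), sp_X, Nat.card_eq_fintype_card (α := ZMod p), ZMod.card] at h3
    exact h3

end Pool.Agent.V7H14.GF
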