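import Pool.Agent.Y837.SV.Gen3
import Pool.Agent.V7H14.GF.Cov

set_option autoImplicit false
set_option linter.unusedSectionVars false
set_option linter.unusedVariables false

/-! # The assembly with algebraic exceptional values

This is the criterion of helper837 (`Pool.Agent.Y837.SV.gen3`, `gen3t`, `crit3`) with the finite sets of integer
exceptional values replaced by the zeros modulo `p` of nonzero integer polynomials. -/

namespace Pool.Agent.V7H14.GF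

open Finset Filter
open Pool.Agent.H256R2.SC (ff crt_int)
open Pool.Agent.H256R2.SC.LG (ana)
open Pool.Agent.H378R2.QG (w0 ev_pow ev_more inj_of_small)
open Pool.Agent.Y837.SV

open scoped Classical

section
variable {ι : Type} {d : ℕ}

/-- the colouring with the colours which are allowed at the prime `p` -/
noncomputable def colG (φ : ι → ∀ p : ℕ, (Fin d → ZMod p) → ZMod p) (T : Finset (ι × ℤ))
    (G : ℕ → ι × ℤ → Prop) (p : ℕ) (x : Fin d → ZMod p) : Option {k // k ∈ T} :=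
  (colF φ (T.filter (G p)) p x).map (fun k => ⟨k.1, (mem_filter.1 k.2).1⟩)

theorem colG_some {φ : ι → ∀ p : ℕ, (Fin d → ZMod p) → ZMod p} {T : Finset (ι × ℤ)}
    {G : ℕ → ι × ℤ → Prop} {p : ℕ} {x : Fin d → ZMod p} {k : {k // k ∈ T}}
    (h : colG φ T G p x = some k) : ∃ h' : k.1 ∈ T.filter (G p), colF φ (T.filter (G p)) p x = some ⟨k.1, h'⟩ := by
  unfold colG at h
  rw [Option.map_eq_some_iff] at h
  obtain ⟨a, ha, hak⟩ := h
  have h1 : a.1 = k.1 := congrArg Subtype.val hak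
  have h2 : k.1 ∈ T.filter (G p) := h1 ▸ a.2
  refine ⟨h2, ?_⟩
  rw [ha]
  congr 1
  exact Subtype.ext h1

theorem colG_kill {φ : ι → ∀ p : ℕ, (Fin d → ZMod p) → ZMod p} {T : Finset (ι × ℤ)}
    {G : ℕ → ι × ℤ → Prop} {p : ℕ} {x : Fin d → ZMod p} {k : {k // k ∈ T}}
    (h : colG φ T G p x = some k) : kill φ p k.1 x := by
  obtain ⟨h', h1⟩ := colG_some h
  have h2 := colF_kill h1
  exact h2

theorem dens_colG_bad (φ : ι → ∀ p : ℕ, (Fin d → ZMod p) → ZMod p) (T : Finset (ι × ℤ))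
    (G : ℕ → ι × ℤ → Prop) (p : ℕ) (k : {k // k ∈ T}) (hk : ¬ G p k.1) :
    Pool.Agent.Y837.SV.dens d (fun p => colG φ T G p) p k = 0 := by
  unfold Pool.Agent.Y837.SV.dens
  have : BB d p (fun x => colG φ T G p x = some k) = ∅ := by
    rw [Finset.eq_empty_iff_forall_notMem]
    intro b hb
    rw [mem_BB] at hb
    obtain ⟨h', -⟩ := colG_some hb.2
    exact hk (mem_filter.1 h').2
  rw [this]
  simp

theorem dens_colG_good (φ : ι → ∀ p : ℕ, (Fin d → ZMod p) → ZMod p) (T : Finset (ι × ℤ))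
    (G : ℕ → ι × ℤ → Prop) (p : ℕ) (k : {k // k ∈ T}) (hk : G p k.1) :
    Pool.Agent.Y837.SV.dens d (fun p => colG φ T G p) p k =
      Pool.Agent.Y837.SV.dens d (fun p' => colF φ (T.filter (G p)) p') p ⟨k.1, mem_filter.2 ⟨k.2, hk⟩⟩ := by
  unfold Pool.Agent.Y837.SV.dens
  have : BB d p (fun x => colG φ T G p x = some k) =
      BB d p (fun x => colF φ (T.filter (G p)) p x = some ⟨k.1, mem_filter.2 ⟨k.2, hk⟩⟩) := by
    ext b
    rw [mem_BB, mem_BB]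
    refine and_congr_right fun _ => ?_
    constructor
    · intro h
      obtain ⟨h', h1⟩ := colG_some h
      exact h1
    · intro h
      unfold colG
      rw [h]
      rfl
  rw [this]

end

/-- few large primes divide a small integer -/
theorem card_big (N : ℤ) (hN : N ≠ 0) (L : ℝ) (hL : 1 < L) (D : ℕ) (h : |(N : ℝ)| ≤ (L ^ 2) ^ D) :
    (N.natAbs.primeFactors.filter (fun p : ℕ => L ^ 2 < (p : ℝ))).card ≤ D := by
  set S := N.natAbs.primeFactors.filter (fun p : ℕ => L ^ 2 < (p : ℝ)) with hS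
  have h1 : ∏ p ∈ S, p ∣ N.natAbs :=
    (Finset.prod_dvd_prod_of_subset _ _ _ (filter_subset _ _)).trans (Nat.prod_primeFactors_dvd _)
  have h2 : ∏ p ∈ S, p ≤ N.natAbs := Nat.le_of_dvd (Int.natAbs_pos.2 hN) h1
  have hL2 : 1 < L ^ 2 := by nlinarith
  have h3 : (L ^ 2) ^ S.card ≤ ∏ p ∈ S, (p : ℝ) := by
    rw [← Finset.prod_const]
    refine Finset.prod_le_prod (fun _ _ => by positivity) fun p hp => ?_
    rw [hS] at hp
    exact (mem_filter.1 hp).2.le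
  have h4 : (∏ p ∈ S, (p : ℝ)) ≤ |(N : ℝ)| := by
    have h5 : ((∏ p ∈ S, p : ℕ) : ℝ) ≤ (N.natAbs : ℝ) := by exact_mod_cast h2
    rw [Nat.cast_natAbs] at h5
    push_cast at h5
    exact h5
  have h6 := (h3.trans h4).trans h
  exact (pow_le_pow_iff_right₀ hL2).1 h6

theorem eval_bound (m : Polynomial ℤ) (t : ℤ) (X : ℝ) (hX : 1 ≤ X) (ht : |(t : ℝ)| ≤ X) :
    |((m.eval t : ℤ) : ℝ)| ≤ (∑ i ∈ Finset.range (m.natDegree + 1), |(m.coeff i : ℝ)|) * X ^ m.natDegree := by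
  rw [Polynomial.eval_eq_sum_range]
  push_cast
  refine (Finset.abs_sum_le_sum_abs _ _).trans ?_
  rw [Finset.sum_mul]
  refine Finset.sum_le_sum fun i hi => ?_
  rw [abs_mul, abs_pow]
  apply mul_le_mul_of_nonneg_left _ (abs_nonneg _)
  rw [Finset.mem_range] at hi
  calc |(t : ℝ)| ^ i ≤ X ^ i := pow_le_pow_left₀ (abs_nonneg _) ht _
    _ ≤ X ^ m.natDegree := pow_le_pow_right₀ hX (by omega)

theorem cast_eval_int (m : Polynomial ℤ) (t : ℤ) (p : ℕ) :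
    ((m.eval t : ℤ) : ZMod p) = Polynomial.aeval ((t : ℤ) : ZMod p) m := by
  rw [Polynomial.aeval_def, Polynomial.eval₂_eq_sum_range, Polynomial.eval_eq_sum_range]
  push_cast
  rfl

theorem gen4 {ι : Type} [Fintype ι] (d : ℕ) (φ : ι → ∀ p : ℕ, (Fin d → ZMod p) → ZMod p)
    (f : ι → (Fin d → ℤ) → ℤ) (hf : ∀ j (p : ℕ) x, ((f j x : ℤ) : ZMod p) = φ j p (red d p x))
    (B : ℕ) (v u : ℕ → Fin d → ℤ)
    (hv : ∀ p : ℕ, p.Prime → B < p → ∀ j, (p : ℤ) ∣ f j (v p))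
    (hu : ∀ p : ℕ, p.Prime → B < p → ∀ j, ¬ (p : ℤ) ∣ f j (u p))
    (m : ι → Polynomial ℤ) (hm : ∀ j, m j ≠ 0)
    (hEx : ∀ j, ∀ r : ℤ, (m j).eval r = 0 → ∃ p : ℕ, p.Prime ∧ p ≤ B ∧ (p : ℤ) ∣ f j (u p) - r)
    (C δ : ℝ) (hC : 0 ≤ C) (hδ : 0 < δ) (hδ2 : δ ≤ 1 / 2)
    (hU : ∀ p : ℕ, p.Prime → B < p → ∀ j, ∀ r : ZMod p, Polynomial.aeval r (m j) ≠ 0 →
      |(p : ℝ) * (Nat.card {x : Fin d → ZMod p // φ j p x = r} : ℝ) - (p : ℝ) ^ d| ≤
        C * (p : ℝ) ^ d * (p : ℝ) ^ (-δ))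
    (hP : ∀ p : ℕ, p.Prime → B < p → ∀ i j, i ≠ j → ∀ r s : ZMod p, Polynomial.aeval r (m i) ≠ 0 →
      Polynomial.aeval s (m j) ≠ 0 →
      (p : ℝ) ^ 2 * (Nat.card {x : Fin d → ZMod p // φ i p x = r ∧ φ j p x = s} : ℝ) ≤
        C * (p : ℝ) ^ d) :
    ∃ c : ℝ, 0 < c ∧ ∃ Z₀ : ℝ, ∀ Z : ℕ, Z₀ ≤ Z → ∀ M : Fin d → ℤ, ∃ x : Fin d → ℤ,
      (∀ i, M i < x i ∧ x i ≤ M i + Z) ∧ ∀ j, ∀ h : ℤ, |(h : ℝ)| ≤ c * ff Z →
        ∃ p : ℕ, p.Prime ∧ (p : ℝ) ≤ (Z : ℝ) ^ (1 / 10 : ℝ) ∧ (p : ℤ) ∣ f j x + h := by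
  obtain ⟨Dn, hDn⟩ : ∃ Dn : ℕ, Dn = ∑ j : ι, (m j).natDegree + 1 := ⟨_, rfl⟩
  obtain ⟨c₀, hc₀, X₁, hcov⟩ := mcovb d (2 * C) δ (by positivity) hδ Dn
  obtain ⟨Cs, hCs, y₀, hsur⟩ := survivors2 B
  obtain ⟨y₁, hw⟩ := ev_w0
  obtain ⟨y₂, hw2⟩ := ev_w0_large B
  obtain ⟨c₁, hc₁def⟩ : ∃ c₁ : ℝ, c₁ = min c₀ 1 / ((Fintype.card ι : ℝ) + 1) := ⟨_, rfl⟩
  have hm0 : 0 < min c₀ 1 := lt_min hc₀ one_pos
  have hι0 : (0 : ℝ) < (Fintype.card ι : ℝ) + 1 := by positivity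
  have hc₁ : 0 < c₁ := by rw [hc₁def]; positivity
  obtain ⟨c, hc, X₂, hana⟩ := ana (y₀ := max y₀ (max (max y₁ y₂) 10)) hc₁ hCs
  obtain ⟨X₃, hev⟩ := ev_pow
  obtain ⟨L₁, hmore⟩ := ev_more 1 one_pos
  obtain ⟨V, hV⟩ : ∃ V : ℝ, V = ∑ j : ι, ∑ i ∈ Finset.range ((m j).natDegree + 1), |((m j).coeff i : ℝ)| :=
    ⟨_, rfl⟩
  have hVb : ∀ j, ∑ i ∈ Finset.range ((m j).natDegree + 1), |((m j).coeff i : ℝ)| ≤ V := by
    intro j
    rw [hV]
    exact Finset.single_le_sum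
      (f := fun j : ι => ∑ i ∈ Finset.range ((m j).natDegree + 1), |((m j).coeff i : ℝ)|)
      (fun _ _ => Finset.sum_nonneg fun _ _ => abs_nonneg _) (mem_univ j)
  refine ⟨c, hc, max (max (max X₁ X₂) X₃) (Real.exp (max L₁ (max V 2))), fun Z hZ' M => ?_⟩
  obtain ⟨hZ1, hZ4⟩ := max_le_iff.1 hZ'
  obtain ⟨hZ2, hZ3⟩ := max_le_iff.1 hZ1
  obtain ⟨hZa, hZb⟩ := max_le_iff.1 hZ2
  obtain ⟨R, hR⟩ : ∃ R : ℕ, R = ⌊c * ff Z⌋₊ := ⟨_, rfl⟩
  obtain ⟨L, hL⟩ : ∃ L : ℝ, L = Real.log Z := ⟨_, rfl⟩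
  obtain ⟨y, hy⟩ : ∃ y : ℝ, y = Real.log Z / 10 := ⟨_, rfl⟩
  obtain ⟨a1, a2, a3, a4, a5, a6, a7, a8, a9, a10, a11, a12, a13, a14, a15, a16, a17⟩ :=
    hana Z hZb y _ hy rfl R hR
  obtain ⟨b1, b2, b3, b4⟩ := hev Z hZ3
  obtain ⟨a3a, a3b⟩ := max_le_iff.1 a3
  obtain ⟨a3b, a3c⟩ := max_le_iff.1 a3b
  obtain ⟨a3b, a3d⟩ := max_le_iff.1 a3b
  have hBw : (B : ℝ) ≤ w0 y := hw2 y a3d
  have hs := hsur y a3a R a5 a7
  rw [← hL] at b1 b3
  have hZ0 : (0 : ℝ) < Z := by linarith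
  have hLL' : max L₁ (max V 2) ≤ L := by
    rw [hL, ← Real.log_exp (max L₁ (max V 2))]
    exact Real.log_le_log (Real.exp_pos _) hZ4
  have hLL : L₁ ≤ L := (le_max_left _ _).trans hLL'
  have hVL : V ≤ L := ((le_max_left _ _).trans (le_max_right _ _)).trans hLL'
  have hL2 : 2 ≤ L := ((le_max_right _ _).trans (le_max_right _ _)).trans hLL'
  have hL1 : 1 ≤ L := by linarith
  obtain ⟨-, -, k3⟩ := hmore L hLL
  have hwy : w0 y ≤ y := by
    have := hw y a3b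
    linarith
  have hBp : ∀ p : ℕ, (Real.log Z) ^ 2 < p → B < p := by
    intro p hp
    have h1 : (B : ℝ) < p := by linarith
    exact_mod_cast h1
  -- the local classes
  obtain ⟨uc, huc⟩ : ∃ uc : ℕ → Fin d → ℤ, uc = fun p : ℕ => if (p : ℝ) ≤ w0 y then u p else v p := ⟨_, rfl⟩
  have huc1 : ∀ p : ℕ, (p : ℝ) ≤ w0 y → uc p = u p := by
    intro p hp; rw [huc]; simp only; rw [if_pos hp]
  have huc2 : ∀ p : ℕ, w0 y < (p : ℝ) → uc p = v p := by
    intro p hp; rw [huc]; simp only; rw [if_neg (not_le.2 hp)]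
  -- the small primes
  obtain ⟨P, hP'⟩ : ∃ P : ℕ, P = primorial ⌊y⌋₊ := ⟨_, rfl⟩
  have hP0 : 0 < P := by rw [hP']; exact primorial_pos _
  have hPdvd : ∀ p : ℕ, p.Prime → (p : ℝ) ≤ y → (p : ℤ) ∣ (P : ℤ) := by
    intro p hp hpy
    have hpy' : p ≤ ⌊y⌋₊ := Nat.le_floor hpy
    rw [hP', primorial]
    have : p ∈ (Finset.range (⌊y⌋₊ + 1)).filter Nat.Prime := by
      rw [Finset.mem_filter, Finset.mem_range]
      exact ⟨by omega, hp⟩
    exact_mod_cast Finset.dvd_prod_of_mem _ this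
  have hcrt : ∀ i : Fin d, ∃ r : ℤ, ∀ p ∈ (Finset.range (⌊y⌋₊ + 1)).filter Nat.Prime,
      ((p : ℕ) : ℤ) ∣ r - uc p i := by
    intro i
    refine crt_int ((Finset.range (⌊y⌋₊ + 1)).filter Nat.Prime) (fun p : ℕ => (p : ℤ)) ?_ (fun p => uc p i)
    intro p hp q hq hpq
    exact Nat.isCoprime_iff_coprime.2
      ((Nat.coprime_primes (mem_filter.1 hp).2 (mem_filter.1 hq).2).2 hpq)
  choose b0 hb0 using hcrt
  -- the survivors
  obtain ⟨S₀, hS₀⟩ : ∃ S₀ : ι → Finset ℤ, S₀ = fun j => (Finset.Icc (-(R : ℤ)) R).filter (fun h => h ≠ 0 ∧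
      (∀ p : ℕ, p.Prime → B < p → (p : ℝ) ≤ w0 y → ¬ ((p : ℤ) ∣ f j (u p) + h)) ∧
      ∀ p : ℕ, p.Prime → w0 y < p → (p : ℝ) ≤ y → ¬ (p : ℤ) ∣ h) := ⟨_, rfl⟩
  have hS₀card : ∀ j, ((S₀ j).card : ℝ) ≤ c₁ * Real.log Z := by
    intro j
    refine le_trans ?_ ((hs (fun p => f j (u p)) (fun p hp h1 _ => hu p hp h1 j)).trans a8)
    rw [hS₀]
  have hS₀b : ∀ j, ∀ h ∈ S₀ j, h ≠ 0 ∧ |(h : ℝ)| ≤ L ^ (11 / 10 : ℝ) := by
    intro j h hh
    rw [hS₀] at hh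
    simp only at hh
    rw [Finset.mem_filter, Finset.mem_Icc] at hh
    refine ⟨hh.2.1, ?_⟩
    have h1 : |h| ≤ (R : ℤ) := abs_le.mpr hh.1
    have h2 : |(h : ℝ)| ≤ (R : ℝ) := by exact_mod_cast h1
    refine h2.trans (a7.trans ?_)
    rw [hy, hL]
    exact b2
  obtain ⟨T, hT⟩ : ∃ T : Finset (ι × ℤ), T = (univ.biUnion (fun j => (S₀ j).image (fun h => (j, h)))).filter
      (fun k => (m k.1).eval (-k.2) ≠ 0) := ⟨_, rfl⟩
  have hTmem : ∀ k : ι × ℤ, k ∈ T ↔ k.2 ∈ S₀ k.1 ∧ (m k.1).eval (-k.2) ≠ 0 := by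
    intro k
    rw [hT, mem_filter, mem_biUnion]
    constructor
    · rintro ⟨⟨j, -, hj⟩, h0⟩
      rw [mem_image] at hj
      obtain ⟨h, hh, rfl⟩ := hj
      exact ⟨hh, h0⟩
    · rintro ⟨h, h0⟩
      exact ⟨⟨k.1, mem_univ _, mem_image.2 ⟨k.2, h, rfl⟩⟩, h0⟩
  have hTb : ∀ k ∈ T, k.2 ≠ 0 ∧ |(k.2 : ℝ)| ≤ L ^ (11 / 10 : ℝ) := by
    intro k hk
    exact hS₀b _ _ ((hTmem k).1 hk).1
  have hTcard : (T.card : ℝ) ≤ min c₀ 1 * Real.log Z := by
    have h1 : T.card ≤ ∑ j : ι, (S₀ j).card := by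
      rw [hT]
      refine (card_filter_le _ _).trans ?_
      refine card_biUnion_le.trans ?_
      exact Finset.sum_le_sum fun j _ => card_image_le
    have h2 : (T.card : ℝ) ≤ ∑ j : ι, ((S₀ j).card : ℝ) := by exact_mod_cast h1
    calc (T.card : ℝ) ≤ ∑ j : ι, ((S₀ j).card : ℝ) := h2
      _ ≤ ∑ j : ι, (c₁ * Real.log Z) := Finset.sum_le_sum fun j _ => hS₀card j
      _ = Fintype.card ι * (c₁ * Real.log Z) := by
          rw [Finset.sum_const, card_univ, nsmul_eq_mul]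
      _ ≤ ((Fintype.card ι : ℝ) + 1) * (c₁ * Real.log Z) := by
          apply mul_le_mul_of_nonneg_right (by linarith)
          have : 0 ≤ Real.log Z := a2
          positivity
      _ = min c₀ 1 * Real.log Z := by
          rw [hc₁def]
          field_simp
  have hTL : (T.card : ℝ) ≤ L := by
    refine hTcard.trans ?_
    rw [← hL]
    calc min c₀ 1 * L ≤ 1 * L := mul_le_mul_of_nonneg_right (min_le_right _ _) (by linarith)
      _ = L := one_mul L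
  have hL110 : 0 ≤ L ^ (11 / 10 : ℝ) := Real.rpow_nonneg (by linarith) _
  obtain ⟨G, hG⟩ : ∃ G : ℕ → ι × ℤ → Prop, G = fun (p : ℕ) (k : ι × ℤ) => ¬ (p : ℤ) ∣ (m k.1).eval (-k.2) := ⟨_, rfl⟩
  have hGa : ∀ (p : ℕ) (k : ι × ℤ), G p k → Polynomial.aeval (-((k.2 : ℤ) : ZMod p)) (m k.1) ≠ 0 := by
    intro p k hk h0
    rw [hG] at hk
    apply hk
    rw [← ZMod.intCast_zmod_eq_zero_iff_dvd, cast_eval_int]
    rw [Int.cast_neg]
    exact h0
  obtain ⟨x, hx1, hx2, hx3⟩ := hcov Z hZa {k // k ∈ T} (by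
      rw [Fintype.card_coe]
      refine hTcard.trans ?_
      exact mul_le_mul_of_nonneg_right (min_le_left _ _) a2)
    (fun p => colG φ T G p)
    (fun k => ((m k.1.1).eval (-k.1.2)).natAbs.primeFactors.filter (fun p : ℕ => L ^ 2 < (p : ℝ)))
    (by
      intro k
      refine card_big _ ((hTmem k.1).1 k.2).2 L (by linarith) Dn ?_
      have h1 := eval_bound (m k.1.1) (-k.1.2) (L ^ 2) (one_le_pow₀ hL1) (by
        push_cast
        rw [abs_neg]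
        refine (hTb k.1 k.2).2.trans ?_
        rw [← Real.rpow_natCast]
        exact Real.rpow_le_rpow_of_exponent_le hL1 (by norm_num))
      refine h1.trans ?_
      have h2 : (∑ i ∈ Finset.range ((m k.1.1).natDegree + 1), |((m k.1.1).coeff i : ℝ)|) ≤ L ^ 2 := by
        refine ((hVb k.1.1).trans hVL).trans ?_
        nlinarith
      have h3 : (m k.1.1).natDegree + 1 ≤ Dn := by
        rw [hDn]
        exact Nat.succ_le_succ (Finset.single_le_sum (f := fun j : ι => (m j).natDegree)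
          (fun _ _ => Nat.zero_le _) (mem_univ k.1.1))
      calc (∑ i ∈ Finset.range ((m k.1.1).natDegree + 1), |((m k.1.1).coeff i : ℝ)|) *
            (L ^ 2) ^ (m k.1.1).natDegree ≤ L ^ 2 * (L ^ 2) ^ (m k.1.1).natDegree :=
            mul_le_mul_of_nonneg_right h2 (by positivity)
        _ = (L ^ 2) ^ ((m k.1.1).natDegree + 1) := by ring
        _ ≤ (L ^ 2) ^ Dn := pow_le_pow_right₀ (one_le_pow₀ hL1) h3)
    (by
      intro p hp hp1 hp2 k hk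
      refine dens_colG_bad φ T G p k ?_
      rw [hG]
      simp only [not_not]
      have h1 := (mem_filter.1 hk).1
      exact Int.natCast_dvd.2 (Nat.dvd_of_mem_primeFactors h1))
    (by
      intro p hp hp1 hp2 k hk
      have hBp' := hBp p hp1
      rw [← hL] at hp1
      have hGk : G p k.1 := by
        rw [hG]
        intro h1
        apply hk
        rw [mem_filter, Nat.mem_primeFactors]
        exact ⟨⟨hp, Int.natCast_dvd.1 h1, Int.natAbs_ne_zero.2 ((hTmem k.1).1 k.2).2⟩, hp1⟩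
      rw [dens_colG_good φ T G p k hGk]
      have hsub : ∀ k ∈ T.filter (G p), k ∈ T ∧ G p k := fun k hk => mem_filter.1 hk
      refine dens_bound2 φ C δ hC hδ2 p hp (T.filter (G p)) ?_ ?_ ?_ ?_ _
      · intro k hk
        exact hU p hp hBp' k.1 _ (hGa p k (hsub k hk).2)
      · intro k hk k' hk' hkk
        exact hP p hp hBp' k.1 k'.1 hkk _ _ (hGa p k (hsub k hk).2) (hGa p k' (hsub k' hk').2)
      · intro k hk k' hk' hkk hne
        refine inj_of_small k3 (hTb k (hsub k hk).1).2 (hTb k' (hsub k' hk').1).2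
          (fun h => hne (Prod.ext hkk h)) hp1
      · have h1 : ((T.filter (G p)).card : ℝ) ≤ L :=
          (by exact_mod_cast card_filter_le T (G p) : ((T.filter (G p)).card : ℝ) ≤ T.card).trans hTL
        have : ((T.filter (G p)).card : ℝ) ^ 2 ≤ L ^ 2 := pow_le_pow_left₀ (Nat.cast_nonneg _) h1 2
        linarith)
    P hP0 (by rw [hP']; exact a11)
    (by
      intro p hp hpP
      rw [hP', primorial, Prime.dvd_finsetProd_iff hp.prime] at hpP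
      obtain ⟨p', hp', hpp'⟩ := hpP
      rw [Finset.mem_filter, Finset.mem_range] at hp'
      have h4 : p = p' := (Nat.prime_dvd_prime_iff_eq hp hp'.2).1 hpp'
      have h5 : (p : ℝ) ≤ y := by
        have : p ≤ ⌊y⌋₊ := by omega
        calc (p : ℝ) ≤ (⌊y⌋₊ : ℝ) := by exact_mod_cast this
          _ ≤ y := Nat.floor_le a4
      linarith)
    b0 M
  refine ⟨x, hx1, fun j h hh => ?_⟩
  have hyZ : y ≤ (Z : ℝ) ^ (1 / 10 : ℝ) := by
    have h1 := Real.log_le_rpow_div hZ0.le (show (0 : ℝ) < 1 / 10 by norm_num)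
    rw [hy]
    linarith
  have hhR : |h| ≤ (R : ℤ) := by
    have h1 : (h.natAbs : ℝ) ≤ c * ff Z := by
      rw [Nat.cast_natAbs]
      push_cast
      exact hh
    have h2 : h.natAbs ≤ R := by rw [hR]; exact Nat.le_floor h1
    rw [Int.abs_eq_natAbs]
    exact_mod_cast h2
  -- the value modulo a small prime
  have hval : ∀ p : ℕ, p.Prime → (p : ℝ) ≤ y → (p : ℤ) ∣ f j x - f j (uc p) := by
    intro p hp hpy
    have h1 : red d p x = red d p (uc p) := by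
      funext i
      have h2 : (p : ℤ) ∣ x i - b0 i := (hPdvd p hp hpy).trans (hx2 i)
      have h3 : (p : ℤ) ∣ b0 i - uc p i := hb0 i p (by
        have hpy' : p ≤ ⌊y⌋₊ := Nat.le_floor hpy
        rw [Finset.mem_filter, Finset.mem_range]
        exact ⟨by omega, hp⟩)
      have h4 : (p : ℤ) ∣ x i - uc p i := by
        have := dvd_add h2 h3
        have e : x i - b0 i + (b0 i - uc p i) = x i - uc p i := by ring
        rwa [e] at this
      have h5 := (ZMod.intCast_zmod_eq_zero_iff_dvd _ p).2 h4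
      push_cast at h5
      exact sub_eq_zero.1 h5
    rw [← ZMod.intCast_zmod_eq_zero_iff_dvd]
    push_cast
    rw [hf, hf, h1, sub_self]
  have hmed : ∀ p : ℕ, p.Prime → w0 y < (p : ℝ) → (p : ℝ) ≤ y → (p : ℤ) ∣ f j x := by
    intro p hp h1 h2
    have h3 := hval p hp h2
    rw [huc2 p h1] at h3
    have h4 : B < p := by
      have : (B : ℝ) < p := lt_of_le_of_lt hBw h1
      exact_mod_cast this
    have h5 := dvd_add h3 (hv p hp h4 j)
    rwa [sub_add_cancel] at h5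
  have hsml : ∀ p : ℕ, p.Prime → (p : ℝ) ≤ w0 y → (p : ℤ) ∣ f j x - f j (u p) := by
    intro p hp h1
    have h3 := hval p hp (h1.trans hwy)
    rwa [huc1 p h1] at h3
  by_cases h0 : h = 0
  · -- a medium prime
    obtain ⟨p, hp, hp1, hp2⟩ := exists_medium a3c (hw y a3b)
    refine ⟨p, hp, hp2.trans hyZ, ?_⟩
    rw [h0, add_zero]
    exact hmed p hp hp1 hp2
  by_cases hex : (m j).eval (-h) = 0
  · obtain ⟨p, hp, hp1, hp2⟩ := hEx j _ hex
    have hpw : (p : ℝ) ≤ w0 y := by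
      have : (p : ℝ) ≤ B := by exact_mod_cast hp1
      linarith
    refine ⟨p, hp, (hpw.trans hwy).trans hyZ, ?_⟩
    have h1 := dvd_add (hsml p hp hpw) hp2
    have e : f j x - f j (u p) + (f j (u p) - -h) = f j x + h := by ring
    rwa [e] at h1
  by_cases hmem' : h ∈ S₀ j
  · have hmem : ((j, h) : ι × ℤ) ∈ T := by
      rw [hTmem]
      exact ⟨hmem', hex⟩
    obtain ⟨p, hp1, hp2, hp3, hp4⟩ := hx3 ⟨(j, h), hmem⟩
    refine ⟨p, hp1, hp3, ?_⟩
    have h1 := colG_kill hp4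
    unfold kill at h1
    simp only at h1
    rw [← ZMod.intCast_zmod_eq_zero_iff_dvd]
    push_cast
    rw [hf]
    exact h1
  · rw [hS₀] at hmem'
    simp only at hmem'
    rw [Finset.mem_filter, Finset.mem_Icc] at hmem'
    by_cases hc1 : ∃ p : ℕ, p.Prime ∧ (p : ℝ) ≤ w0 y ∧ (p : ℤ) ∣ f j (u p) + h
    · obtain ⟨p, hp, hp1, hp2⟩ := hc1
      refine ⟨p, hp, (hp1.trans hwy).trans hyZ, ?_⟩
      have h1 := dvd_add (hsml p hp hp1) hp2
      have e : f j x - f j (u p) + (f j (u p) + h) = f j x + h := by ring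
      rwa [e] at h1
    by_cases hc2 : ∃ p : ℕ, p.Prime ∧ w0 y < (p : ℝ) ∧ (p : ℝ) ≤ y ∧ (p : ℤ) ∣ h
    · obtain ⟨p, hp, hp1, hp2, hp3⟩ := hc2
      refine ⟨p, hp, hp2.trans hyZ, ?_⟩
      exact dvd_add (hmed p hp hp1 hp2) hp3
    exfalso
    apply hmem'
    push Not at hc1 hc2
    exact ⟨abs_le.1 hhR, h0, fun p hp _ hp2 => hc1 p hp hp2, fun p hp hp1 hp2 => hc2 p hp hp1 hp2⟩

end Pool.Agent.V7H14.GF
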