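import Pool.Agent.V7H14.GF.Crit
import Pool.Agent.V7H14.GF.Alg3

set_option autoImplicit false
set_option linter.all false

/-! # Record neighbourhoods around the values of noncomposite polynomials in two variables -/

namespace Pool.Agent.V7H14.GF

open Finset Filter


open scoped Classical

theorem main2 {ι : Type} [Fintype ι] (F : ι → MvPolynomial (Fin 2) ℤ)
    (hF : ∀ j, ∃ c₀ : ℂ, Irreducible (MvPolynomial.map (Int.castRingHom ℂ) (F j) - MvPolynomial.C c₀))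
    (hind : ∀ i j, i ≠ j → ∀ a b c : ℤ, MvPolynomial.C a * F i + MvPolynomial.C b * F j =
      MvPolynomial.C c → a = 0 ∧ b = 0) :
    ∃ c : ℝ, 0 < c ∧ ∃ Z₀ : ℝ, ∀ Z : ℕ, Z₀ ≤ Z → ∀ M : Fin 2 → ℤ, ∃ x : Fin 2 → ℤ,
      (∀ i, M i < x i ∧ x i ≤ M i + Z) ∧ ∀ j, ∀ n : ℤ, |(n : ℝ) - MvPolynomial.eval x (F j)| ≤ c * Pool.Agent.H256R2.SC.ff Z →
        ∃ p : ℕ, p.Prime ∧ (p : ℝ) ≤ (Z : ℝ) ^ (1 / 10 : ℝ) ∧ (p : ℤ) ∣ n := by
  choose m hm W B hW hWB using fun j => curves (F j) (hF j)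
  have htd : ∀ j, 0 < (F j).totalDegree := fun j => by
    obtain ⟨c₀, h⟩ := hF j
    exact td_pos h
  have hpairs : ∀ k : ι × ι, ∃ C₁ B₁ : ℕ, k.1 ≠ k.2 → ∀ (p : ℕ) [Fact p.Prime], B₁ < p → ∀ r s : ZMod p,
      Irreducible (MvPolynomial.map (Int.castRingHom (ZMod p)) (F k.1) - MvPolynomial.C r) →
      Irreducible (MvPolynomial.map (Int.castRingHom (ZMod p)) (F k.2) - MvPolynomial.C s) →
      Nat.card {x : Fin 2 → ZMod p // MvPolynomial.aeval x (F k.1) = r ∧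
        MvPolynomial.aeval x (F k.2) = s} ≤ C₁ := by
    intro k
    by_cases hk : k.1 = k.2
    · exact ⟨0, 0, fun h => absurd hk h⟩
    · obtain ⟨C₁, B₁, h⟩ := pairs (F k.1) (F k.2) (htd k.1) (hind k.1 k.2 hk)
      exact ⟨C₁, B₁, fun _ => h⟩
  choose C₁ B₁ hCB using hpairs
  obtain ⟨B₀, hB₀⟩ : ∃ B₀ : ℕ, B₀ = ∑ j : ι, B j + ∑ k : ι × ι, B₁ k := ⟨_, rfl⟩
  obtain ⟨C, hC⟩ : ∃ C : ℝ, C = ∑ j : ι, W j + ∑ k : ι × ι, (C₁ k : ℝ) := ⟨_, rfl⟩
  have hBj : ∀ j, B j ≤ B₀ := fun j => by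
    have := Finset.single_le_sum (f := fun j : ι => B j) (fun _ _ => Nat.zero_le _) (mem_univ j)
    rw [hB₀]
    omega
  have hBk : ∀ k, B₁ k ≤ B₀ := fun k => by
    have := Finset.single_le_sum (f := fun k : ι × ι => B₁ k) (fun _ _ => Nat.zero_le _) (mem_univ k)
    rw [hB₀]
    omega
  have hs1 : 0 ≤ ∑ j : ι, W j := Finset.sum_nonneg fun j _ => hW j
  have hs2 : 0 ≤ ∑ k : ι × ι, (C₁ k : ℝ) := Finset.sum_nonneg fun k _ => Nat.cast_nonneg _
  have hCj : ∀ j, W j ≤ C := fun j => by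
    have := Finset.single_le_sum (f := fun j : ι => W j) (fun j _ => hW j) (mem_univ j)
    rw [hC]
    linarith
  have hCk : ∀ k, (C₁ k : ℝ) ≤ C := fun k => by
    have := Finset.single_le_sum (f := fun k : ι × ι => (C₁ k : ℝ)) (fun _ _ => Nat.cast_nonneg _)
      (mem_univ k)
    rw [hC]
    linarith
  refine crit4 2 F ?_ m hm B₀ C (1 / 2) (by norm_num) ?_ ?_
  · intro j c hc
    have := htd j
    rw [hc, MvPolynomial.totalDegree_C] at this
    exact lt_irrefl _ this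
  · intro p hp hBp j r hr
    have : Fact p.Prime := ⟨hp⟩
    have hp0 : (0 : ℝ) < p := by exact_mod_cast hp.pos
    obtain ⟨-, h1⟩ := hWB j p (lt_of_le_of_lt (hBj j) hBp) r hr
    have e1 : (p : ℝ) * (Nat.card {x : Fin 2 → ZMod p // MvPolynomial.aeval x (F j) = r} : ℝ) -
        (p : ℝ) ^ 2 = (p : ℝ) * ((Nat.card {x : Fin 2 → ZMod p // MvPolynomial.aeval x (F j) = r} : ℝ) - p) := by
      ring
    rw [e1, abs_mul, abs_of_pos hp0]
    have e2 : (p : ℝ) ^ 2 * (p : ℝ) ^ (-(1 / 2) : ℝ) = p * √(p : ℝ) := by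
      rw [Real.rpow_neg hp0.le, ← Real.sqrt_eq_rpow]
      have h2 : √(p : ℝ) ≠ 0 := (Real.sqrt_pos.2 hp0).ne'
      field_simp
      rw [Real.sq_sqrt hp0.le]
    calc (p : ℝ) * |(Nat.card {x : Fin 2 → ZMod p // MvPolynomial.aeval x (F j) = r} : ℝ) - p|
        ≤ p * (W j * √(p : ℝ)) := mul_le_mul_of_nonneg_left h1 hp0.le
      _ ≤ p * (C * √(p : ℝ)) := by
          apply mul_le_mul_of_nonneg_left _ hp0.le
          exact mul_le_mul_of_nonneg_right (hCj j) (Real.sqrt_nonneg _)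
      _ = C * (p * √(p : ℝ)) := by ring
      _ = C * ((p : ℝ) ^ 2 * (p : ℝ) ^ (-(1 / 2) : ℝ)) := by rw [e2]
      _ = C * (p : ℝ) ^ 2 * (p : ℝ) ^ (-(1 / 2) : ℝ) := by ring
  · intro p hp hBp i j hij r s hr hs
    have : Fact p.Prime := ⟨hp⟩
    have hp0 : (0 : ℝ) < p := by exact_mod_cast hp.pos
    have h1 := (hWB i p (lt_of_le_of_lt (hBj i) hBp) r hr).1
    have h2 := (hWB j p (lt_of_le_of_lt (hBj j) hBp) s hs).1
    have h3 := hCB (i, j) hij p (lt_of_le_of_lt (hBk (i, j)) hBp) r s h1 h2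
    have h4 : (Nat.card {x : Fin 2 → ZMod p // MvPolynomial.aeval x (F i) = r ∧
        MvPolynomial.aeval x (F j) = s} : ℝ) ≤ C := by
      refine le_trans ?_ (hCk (i, j))
      exact_mod_cast h3
    rw [mul_comm]
    exact mul_le_mul_of_nonneg_right h4 (by positivity)

end Pool.Agent.V7H14.GF
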